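import Pool.Agent.helper19.EL.Slice

/-!
# EM (MP_278900_an): calculus on the slab `ℝ × [0, S)`

* `hasFDerivWithinAt_of_partial`, `contDiffOn_succ_of_partial`: continuous / smooth partial
  derivatives give a continuously differentiable / smooth function on the slab.
* `contDiffOn_prim`: `∫₀ᵗ g u τ dτ` is as smooth as `g`.
-/

set_option autoImplicit false

open scoped Real ContDiff Topology
open MeasureTheory intervalIntegral Set Filter

namespace Pool.Agent.helper69.EM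

variable {E : Type} [NormedAddCommGroup E] [NormedSpace ℝ E]

/-- the slab -/
abbrev D (S : ℝ) : Set (ℝ × ℝ) := (Set.univ : Set ℝ) ×ˢ Set.Ico (0 : ℝ) S

theorem uD (S : ℝ) : UniqueDiffOn ℝ (D S) :=
  uniqueDiffOn_univ.prod (uniqueDiffOn_Ico 0 S)

theorem hasFDerivWithinAt_of_partial {S : ℝ} {F A : ℝ → ℝ → E} {b : E} {p : ℝ × ℝ}
    (hA : ∀ t ∈ Ico 0 S, ∀ u, HasDerivAt (fun x => F x t) (A u t) u)
    (hAc : ContinuousWithinAt (fun q : ℝ × ℝ => A q.1 q.2) (D S) p)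
    (hB : HasDerivWithinAt (fun τ => F p.1 τ) b (Ico 0 S) p.2) :
    HasFDerivWithinAt (fun q : ℝ × ℝ => F q.1 q.2)
      ((ContinuousLinearMap.fst ℝ ℝ ℝ).smulRight (A p.1 p.2) +
        (ContinuousLinearMap.snd ℝ ℝ ℝ).smulRight b) (D S) p := by
  have h1 : (fun q : ℝ × ℝ => F q.1 q.2 - F p.1 q.2 - (q.1 - p.1) • A p.1 p.2)
      =o[𝓝[D S] p] fun q => q - p := by
    rw [Asymptotics.isLittleO_iff]
    intro ε hε
    obtain ⟨δ, hδ, hd⟩ := Metric.continuousWithinAt_iff.1 hAc ε hε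
    have hmem : D S ∩ Metric.ball p δ ∈ 𝓝[D S] p :=
      inter_mem self_mem_nhdsWithin (mem_nhdsWithin_of_mem_nhds (Metric.ball_mem_nhds p hδ))
    filter_upwards [hmem] with q hq
    have hq2 : q.2 ∈ Ico 0 S := hq.1.2
    have hqd : dist q p < δ := hq.2
    have hq1' : dist q.1 p.1 < δ := lt_of_le_of_lt (le_max_left _ _) hqd
    have hq2' : dist q.2 p.2 < δ := lt_of_le_of_lt (le_max_right _ _) hqd
    have hder : ∀ x ∈ uIcc p.1 q.1, HasDerivWithinAt (fun x => F x q.2 - x • A p.1 p.2)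
        (A x q.2 - A p.1 p.2) (uIcc p.1 q.1) x := by
      intro x _
      have h := (hA q.2 hq2 x).sub ((hasDerivAt_id x).smul_const (A p.1 p.2))
      simp only [one_smul] at h
      exact h.hasDerivWithinAt
    have hbd : ∀ x ∈ uIcc p.1 q.1, ‖A x q.2 - A p.1 p.2‖ ≤ ε := by
      intro x hx
      have hxd : dist x p.1 ≤ dist q.1 p.1 := by
        rw [Real.dist_eq, Real.dist_eq]
        exact Set.abs_sub_left_of_mem_uIcc hx
      have hmx : (x, q.2) ∈ D S := ⟨mem_univ _, hq2⟩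
      have hdx : dist (x, q.2) p < δ := by
        rw [Prod.dist_eq]
        exact max_lt (lt_of_le_of_lt hxd hq1') hq2'
      have := hd hmx hdx
      rw [dist_eq_norm] at this
      exact this.le
    have hmv := (convex_uIcc p.1 q.1).norm_image_sub_le_of_norm_hasDerivWithin_le hder hbd
      left_mem_uIcc right_mem_uIcc
    have he : F q.1 q.2 - F p.1 q.2 - (q.1 - p.1) • A p.1 p.2 =
        (F q.1 q.2 - q.1 • A p.1 p.2) - (F p.1 q.2 - p.1 • A p.1 p.2) := by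
      rw [sub_smul]; abel
    rw [he]
    refine hmv.trans ?_
    exact mul_le_mul_of_nonneg_left (norm_fst_le (q - p)) hε.le
  have h2 : (fun q : ℝ × ℝ => F p.1 q.2 - F p.1 p.2 - (q.2 - p.2) • b)
      =o[𝓝[D S] p] fun q => q - p := by
    have h3 : (fun τ : ℝ => F p.1 τ - F p.1 p.2 - (τ - p.2) • b)
        =o[𝓝[Ico 0 S] p.2] fun τ => τ - p.2 := hasDerivWithinAt_iff_isLittleO.1 hB
    have h4 : Tendsto (fun q : ℝ × ℝ => q.2) (𝓝[D S] p) (𝓝[Ico 0 S] p.2) := by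
      refine tendsto_nhdsWithin_of_tendsto_nhds_of_eventually_within _ ?_ ?_
      · exact (continuous_snd.tendsto p).mono_left nhdsWithin_le_nhds
      · filter_upwards [self_mem_nhdsWithin] with q hq
        exact hq.2
    have h5 := h3.comp_tendsto h4
    refine h5.trans_isBigO ?_
    refine Asymptotics.isBigO_of_le _ fun q => ?_
    exact norm_snd_le (q - p)
  rw [hasFDerivWithinAt_iff_isLittleO]
  refine (h1.add h2).congr_left fun q => ?_
  simp only [add_apply, ContinuousLinearMap.smulRight_apply,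
    ContinuousLinearMap.coe_fst', ContinuousLinearMap.coe_snd', Prod.fst_sub, Prod.snd_sub]
  abel

theorem contDiffOn_succ_of_partial {S : ℝ} {n : ℕ} {F A B : ℝ → ℝ → E}
    (hA : ∀ t ∈ Ico 0 S, ∀ u, HasDerivAt (fun x => F x t) (A u t) u)
    (hB : ∀ t ∈ Ico 0 S, ∀ u, HasDerivWithinAt (fun τ => F u τ) (B u t) (Ico 0 S) t)
    (hAn : ContDiffOn ℝ n (fun q : ℝ × ℝ => A q.1 q.2) (D S))
    (hBn : ContDiffOn ℝ n (fun q : ℝ × ℝ => B q.1 q.2) (D S)) :
    ContDiffOn ℝ (n + 1 : ℕ) (fun q : ℝ × ℝ => F q.1 q.2) (D S) := by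
  have hd : ∀ p ∈ D S, HasFDerivWithinAt (fun q : ℝ × ℝ => F q.1 q.2)
      ((ContinuousLinearMap.fst ℝ ℝ ℝ).smulRight (A p.1 p.2) +
        (ContinuousLinearMap.snd ℝ ℝ ℝ).smulRight (B p.1 p.2)) (D S) p := fun p hp =>
    hasFDerivWithinAt_of_partial hA (hAn.continuousOn p hp) (hB p.2 hp.2 p.1)
  have h1 : ContDiffOn ℝ ((n : ℕ) + 1) (fun q : ℝ × ℝ => F q.1 q.2) (D S) := by
    refine (contDiffOn_succ_iff_fderivWithin (uD S)).2 ⟨fun p hp => (hd p hp).differentiableWithinAt,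
      fun h => by simp at h, ?_⟩
    have h2 : ContDiffOn ℝ n (fun p : ℝ × ℝ =>
        (ContinuousLinearMap.fst ℝ ℝ ℝ).smulRight (A p.1 p.2) +
        (ContinuousLinearMap.snd ℝ ℝ ℝ).smulRight (B p.1 p.2)) (D S) := by
      refine ContDiffOn.add ?_ ?_
      · exact contDiffOn_const.smulRight hAn
      · exact contDiffOn_const.smulRight hBn
    refine h2.congr fun p hp => ?_
    exact (hd p hp).fderivWithin ((uD S) p hp)
  exact_mod_cast h1

theorem continuous_clamp (S' : ℝ) : Continuous fun τ : ℝ => max 0 (min τ S') := by fun_prop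

omit [NormedSpace ℝ E] in
/-- clamping the time makes a function on the slab continuous everywhere -/
theorem continuous_of_clamp {S S' : ℝ} (h0 : 0 ≤ S') (h1 : S' < S) {g : ℝ → ℝ → E}
    (hg : ContinuousOn (fun q : ℝ × ℝ => g q.1 q.2) (D S)) :
    Continuous fun q : ℝ × ℝ => g q.1 (max 0 (min q.2 S')) := by
  have h2 : Continuous fun q : ℝ × ℝ => ((q.1, max 0 (min q.2 S')) : ℝ × ℝ) := by fun_prop
  refine hg.comp_continuous h2 fun q => ⟨mem_univ _, le_max_left _ _, ?_⟩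
  exact lt_of_le_of_lt (max_le h0 (min_le_right _ _)) h1

theorem clamp_eq {S' τ : ℝ} (h : τ ∈ Icc 0 S') : max 0 (min τ S') = τ := by
  rw [min_eq_left h.2, max_eq_right h.1]

theorem continuousOn_prim {S : ℝ} {g : ℝ → ℝ → E}
    (hg : ContinuousOn (fun q : ℝ × ℝ => g q.1 q.2) (D S)) :
    ContinuousOn (fun q : ℝ × ℝ => ∫ τ in (0 : ℝ)..q.2, g q.1 τ) (D S) := by
  intro p hp
  have hp2 : p.2 ∈ Ico 0 S := hp.2
  set S' : ℝ := (p.2 + S) / 2 with hS'
  have hS1 : p.2 < S' := by rw [hS']; linarith [hp2.2]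
  have hS2 : S' < S := by rw [hS']; linarith [hp2.2]
  have hS0 : 0 ≤ S' := hp2.1.trans hS1.le
  have h1 := continuous_of_clamp hS0 hS2 hg
  have h2 : Continuous fun q : ℝ × ℝ => ∫ τ in (0 : ℝ)..q.2, g q.1 (max 0 (min τ S')) := by
    refine continuous_parametric_intervalIntegral_of_continuous
      (f := fun (q : ℝ × ℝ) τ => g q.1 (max 0 (min τ S'))) ?_ continuous_snd
    have h3 : Continuous fun x : (ℝ × ℝ) × ℝ => ((x.1.1, x.2) : ℝ × ℝ) := by fun_prop
    exact h1.comp h3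
  have h3 : (fun q : ℝ × ℝ => ∫ τ in (0 : ℝ)..q.2, g q.1 τ) =ᶠ[𝓝[D S] p]
      fun q => ∫ τ in (0 : ℝ)..q.2, g q.1 (max 0 (min τ S')) := by
    have h4 : {q : ℝ × ℝ | q.2 < S'} ∈ 𝓝 p :=
      (isOpen_lt continuous_snd continuous_const).mem_nhds hS1
    filter_upwards [inter_mem self_mem_nhdsWithin (mem_nhdsWithin_of_mem_nhds h4)] with q hq
    refine intervalIntegral.integral_congr fun τ hτ => ?_
    rw [uIcc_of_le hq.1.2.1] at hτ
    have hq2 : q.2 < S' := hq.2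
    rw [clamp_eq ⟨hτ.1, hτ.2.trans hq2.le⟩]
  exact (h2.continuousWithinAt).congr_of_eventuallyEq h3 (h3.eq_of_nhdsWithin hp)

/-- the partial derivative in the first variable -/
noncomputable def gu (S : ℝ) (g : ℝ → ℝ → E) (u t : ℝ) : E :=
  fderivWithin ℝ (fun q : ℝ × ℝ => g q.1 q.2) (D S) (u, t) (1, 0)

theorem gu_contDiffOn {S : ℝ} {n : ℕ} {g : ℝ → ℝ → E}
    (hg : ContDiffOn ℝ (n + 1 : ℕ) (fun q : ℝ × ℝ => g q.1 q.2) (D S)) :
    ContDiffOn ℝ n (fun q : ℝ × ℝ => gu S g q.1 q.2) (D S) := by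
  have h1 : ContDiffOn ℝ n (fderivWithin ℝ (fun q : ℝ × ℝ => g q.1 q.2) (D S)) (D S) :=
    hg.fderivWithin (uD S) (by norm_cast)
  exact h1.clm_apply contDiffOn_const

theorem gu_hasDerivAt {S : ℝ} {n : ℕ} {g : ℝ → ℝ → E}
    (hg : ContDiffOn ℝ (n + 1 : ℕ) (fun q : ℝ × ℝ => g q.1 q.2) (D S)) {t : ℝ} (ht : t ∈ Ico 0 S)
    (u : ℝ) : HasDerivAt (fun x => g x t) (gu S g u t) u := by
  have h1 : HasFDerivWithinAt (fun q : ℝ × ℝ => g q.1 q.2)
      (fderivWithin ℝ (fun q : ℝ × ℝ => g q.1 q.2) (D S) (u, t)) (D S) (u, t) :=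
    ((hg.differentiableOn (by norm_cast)) (u, t) ⟨mem_univ _, ht⟩).hasFDerivWithinAt
  have h2 : HasDerivWithinAt (fun u' : ℝ => ((u', t) : ℝ × ℝ)) (1, 0) Set.univ u :=
    ((hasDerivAt_id u).prodMk (hasDerivAt_const u t)).hasDerivWithinAt
  have hm : Set.MapsTo (fun u' : ℝ => ((u', t) : ℝ × ℝ)) Set.univ (D S) :=
    fun x _ => ⟨Set.mem_univ _, ht⟩
  have h3 := HasFDerivWithinAt.comp_hasDerivWithinAt u h1 h2 hm
  exact h3.hasDerivAt Filter.univ_mem

theorem hasDerivAt_prim {S : ℝ} {g g' : ℝ → ℝ → E}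
    (hg : ContinuousOn (fun q : ℝ × ℝ => g q.1 q.2) (D S))
    (hg' : ContinuousOn (fun q : ℝ × ℝ => g' q.1 q.2) (D S))
    (hd : ∀ t ∈ Ico 0 S, ∀ u, HasDerivAt (fun x => g x t) (g' u t) u)
    {t : ℝ} (ht : t ∈ Ico 0 S) (u : ℝ) :
    HasDerivAt (fun x => ∫ τ in (0 : ℝ)..t, g x τ) (∫ τ in (0 : ℝ)..t, g' u τ) u := by
  have hcont : ∀ (f : ℝ → ℝ → E), ContinuousOn (fun q : ℝ × ℝ => f q.1 q.2) (D S) →
      ∀ x, ContinuousOn (f x) (Icc 0 t) := by
    intro f hf x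
    have h1 : ContinuousOn (fun τ : ℝ => ((x, τ) : ℝ × ℝ)) (Icc 0 t) := by fun_prop
    exact hf.comp h1 fun τ hτ => ⟨mem_univ _, hτ.1, lt_of_le_of_lt hτ.2 ht.2⟩
  have hK : IsCompact (Icc (u - 1) (u + 1) ×ˢ Icc (0 : ℝ) t) := isCompact_Icc.prod isCompact_Icc
  have hKD : Icc (u - 1) (u + 1) ×ˢ Icc (0 : ℝ) t ⊆ D S := fun q hq =>
    ⟨mem_univ _, hq.2.1, lt_of_le_of_lt hq.2.2 ht.2⟩
  obtain ⟨C, hC⟩ := hK.exists_bound_of_continuousOn (hg'.mono hKD)
  have hsub : Set.uIoc (0 : ℝ) t ⊆ Icc 0 t := by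
    rw [uIoc_of_le ht.1]; exact Ioc_subset_Icc_self
  refine (intervalIntegral.hasDerivAt_integral_of_dominated_loc_of_deriv_le (bound := fun _ => C)
    (s := Metric.ball u 1) (Metric.ball_mem_nhds u one_pos) ?_ ?_ ?_ ?_ ?_ ?_).2
  · refine Eventually.of_forall fun x => ?_
    exact ((hcont g hg x).mono hsub).aestronglyMeasurable measurableSet_uIoc
  · exact (hcont g hg u).intervalIntegrable_of_Icc ht.1
  · exact ((hcont g' hg' u).mono hsub).aestronglyMeasurable measurableSet_uIoc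
  · refine Eventually.of_forall fun τ hτ x hx => ?_
    refine hC (x, τ) ⟨?_, hsub hτ⟩
    have := Real.ball_eq_Ioo u 1 ▸ hx
    exact ⟨this.1.le, this.2.le⟩
  · exact intervalIntegrable_const
  · refine Eventually.of_forall fun τ hτ x _ => ?_
    exact hd τ ⟨(hsub hτ).1, lt_of_le_of_lt (hsub hτ).2 ht.2⟩ x

variable [CompleteSpace E]

theorem hasDerivWithinAt_prim {S : ℝ} {g : ℝ → ℝ → E}
    (hg : ContinuousOn (fun q : ℝ × ℝ => g q.1 q.2) (D S))
    {t : ℝ} (ht : t ∈ Ico 0 S) (u : ℝ) :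
    HasDerivWithinAt (fun t' => ∫ τ in (0 : ℝ)..t', g u τ) (g u t) (Ico 0 S) t := by
  set S' : ℝ := (t + S) / 2 with hS'
  have hS1 : t < S' := by rw [hS']; linarith [ht.2]
  have hS2 : S' < S := by rw [hS']; linarith [ht.2]
  have hS0 : 0 ≤ S' := ht.1.trans hS1.le
  have h1 := continuous_of_clamp hS0 hS2 hg
  have h2 : Continuous fun τ : ℝ => g u (max 0 (min τ S')) := by
    have h3 : Continuous fun τ : ℝ => ((u, τ) : ℝ × ℝ) := by fun_prop
    exact h1.comp h3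
  have h3 := (h2.integral_hasStrictDerivAt 0 t).hasDerivAt.hasDerivWithinAt (s := Ico 0 S)
  rw [clamp_eq ⟨ht.1, hS1.le⟩] at h3
  have h4 : (fun t' => ∫ τ in (0 : ℝ)..t', g u τ) =ᶠ[𝓝[Ico 0 S] t]
      fun t' => ∫ τ in (0 : ℝ)..t', g u (max 0 (min τ S')) := by
    filter_upwards [inter_mem self_mem_nhdsWithin
      (mem_nhdsWithin_of_mem_nhds (Iio_mem_nhds hS1))] with t' ht'
    refine intervalIntegral.integral_congr fun τ hτ => ?_
    rw [uIcc_of_le ht'.1.1] at hτ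
    have hq2 : t' < S' := ht'.2
    rw [clamp_eq ⟨hτ.1, hτ.2.trans hq2.le⟩]
  exact h3.congr_of_eventuallyEq h4 (h4.eq_of_nhdsWithin ht)

/-- the primitive in time is as smooth as the integrand -/
theorem contDiffOn_prim {S : ℝ} (n : ℕ) : ∀ g : ℝ → ℝ → E,
    ContDiffOn ℝ n (fun q : ℝ × ℝ => g q.1 q.2) (D S) →
    ContDiffOn ℝ n (fun q : ℝ × ℝ => ∫ τ in (0 : ℝ)..q.2, g q.1 τ) (D S) := by
  induction n with
  | zero =>
    intro g hg
    simp only [Nat.cast_zero, contDiffOn_zero] at hg ⊢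
    exact continuousOn_prim hg
  | succ n ih =>
    intro g hg
    have hn : ContDiffOn ℝ n (fun q : ℝ × ℝ => g q.1 q.2) (D S) :=
      hg.of_le (by norm_cast; omega)
    refine contDiffOn_succ_of_partial (F := fun u t => ∫ τ in (0 : ℝ)..t, g u τ)
      (A := fun u t => ∫ τ in (0 : ℝ)..t, gu S g u τ) (B := g) ?_ ?_ ?_ hn
    · intro t ht u
      exact hasDerivAt_prim hg.continuousOn (gu_contDiffOn hg).continuousOn
        (fun t ht u => gu_hasDerivAt hg ht u) ht u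
    · intro t ht u
      exact hasDerivWithinAt_prim hg.continuousOn ht u
    · exact ih _ (gu_contDiffOn hg)

end Pool.Agent.helper69.EM
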