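import Pool.Agent.helper69.EM.Flow
import Pool.Agent.helper19.EL.Evo

/-!
# EM (MP_278900_an): from normal velocity to the free elastic flow

`exists_isFlow`: a smooth family `g` of closed immersed curves on `[0, T)` whose *normal* velocity is
`-(k_ss + k³/2)` can be reparametrised to a solution of `∂_t γ = -(k_ss + k³/2) N` on `[0, S)`,
`S < T`, with the same initial curve and the same images.
-/

set_option autoImplicit false

open scoped Real ContDiff Topology NNReal ComplexConjugate InnerProductSpace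
open MeasureTheory intervalIntegral Set Filter

namespace Pool.Agent.helper69.EM

open Pool.Agent.helper19.EL

/-! ## one curve -/

section curve

variable {c : ℝ → ℂ} {φ d : ℝ → ℝ}

theorem deriv_comp' {F : Type} [NormedAddCommGroup F] [NormedSpace ℝ F] {f : ℝ → F}
    (hφ : ∀ u, HasDerivAt φ (d u) u) {u : ℝ} (hf : DifferentiableAt ℝ f (φ u)) :
    deriv (fun u => f (φ u)) u = d u • deriv f (φ u) :=
  (hf.hasDerivAt.scomp u (hφ u)).deriv

theorem speed_comp (hφ : ∀ u, HasDerivAt φ (d u) u) (hd : ∀ u, 0 < d u)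
    (hc : Differentiable ℝ c) (u : ℝ) : speed (fun u => c (φ u)) u = d u * speed c (φ u) := by
  unfold speed
  rw [deriv_comp' hφ (hc _), norm_smul, Real.norm_of_nonneg (hd u).le]

theorem dsC_comp (hφ : ∀ u, HasDerivAt φ (d u) u) (hd : ∀ u, 0 < d u)
    (hc : Differentiable ℝ c) {f : ℝ → ℂ} (hf : Differentiable ℝ f) (u : ℝ) :
    dsC (fun u => c (φ u)) (fun u => f (φ u)) u = dsC c f (φ u) := by
  unfold dsC
  rw [speed_comp hφ hd hc, deriv_comp' hφ (hf _), Complex.real_smul, Complex.ofReal_mul]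
  exact mul_div_mul_left _ _ (by exact_mod_cast (hd u).ne')

theorem dsR_comp (hφ : ∀ u, HasDerivAt φ (d u) u) (hd : ∀ u, 0 < d u)
    (hc : Differentiable ℝ c) {f : ℝ → ℝ} (hf : Differentiable ℝ f) (u : ℝ) :
    dsR (fun u => c (φ u)) (fun u => f (φ u)) u = dsR c f (φ u) := by
  unfold dsR
  rw [speed_comp hφ hd hc, deriv_comp' hφ (hf _), smul_eq_mul]
  exact mul_div_mul_left _ _ (hd u).ne'

theorem tang_comp (hφ : ∀ u, HasDerivAt φ (d u) u) (hd : ∀ u, 0 < d u)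
    (hc : Differentiable ℝ c) :
    tang (fun u => c (φ u)) = fun u => tang c (φ u) :=
  funext fun u => dsC_comp hφ hd hc hc u

theorem nor_comp (hφ : ∀ u, HasDerivAt φ (d u) u) (hd : ∀ u, 0 < d u)
    (hc : Differentiable ℝ c) (u : ℝ) :
    nor (fun u => c (φ u)) u = nor c (φ u) := by
  unfold nor
  rw [tang_comp hφ hd hc]

theorem curv_comp (hφ : ∀ u, HasDerivAt φ (d u) u) (hd : ∀ u, 0 < d u)
    (hc : Differentiable ℝ c) (ht : Differentiable ℝ (tang c)) :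
    curv (fun u => c (φ u)) = fun u => curv c (φ u) := by
  funext u
  unfold curv
  rw [nor_comp hφ hd hc, tang_comp hφ hd hc, dsC_comp hφ hd hc ht]

theorem elF_comp (hφ : ∀ u, HasDerivAt φ (d u) u) (hd : ∀ u, 0 < d u)
    (hc : Differentiable ℝ c) (ht : Differentiable ℝ (tang c)) (hk : Differentiable ℝ (curv c))
    (hk1 : Differentiable ℝ (dsR c (curv c))) (u : ℝ) :
    elF (fun u => c (φ u)) u = elF c (φ u) := by
  have h1 : dsR (fun u => c (φ u)) (curv (fun u => c (φ u))) = fun u => dsR c (curv c) (φ u) := by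
    funext v
    rw [curv_comp hφ hd hc ht]
    exact dsR_comp hφ hd hc hk v
  unfold elF
  rw [h1, dsR_comp hφ hd hc hk1, curv_comp hφ hd hc ht]

end curve

/-! ## families of immersed curves -/

section family

variable {g : ℝ → ℝ → ℂ} {T : ℝ}

theorem sm_v (hg : Sm T g) (hi : ∀ t ∈ Ico 0 T, ∀ u, deriv (fun u' => g u' t) u ≠ 0) :
    Sm T (fv g) :=
  ContDiffOn.norm ℝ hg.pu (fun p hp => hi p.2 hp.2 p.1)

theorem v_pos (hi : ∀ t ∈ Ico 0 T, ∀ u, deriv (fun u' => g u' t) u ≠ 0) {t : ℝ}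
    (ht : t ∈ Ico 0 T) (u : ℝ) : 0 < fv g u t := speed_pos (hi t ht u)

theorem sm_T (hg : Sm T g) (hi : ∀ t ∈ Ico 0 T, ∀ u, deriv (fun u' => g u' t) u ≠ 0) :
    Sm T (fT g) := by
  have h1 : ContDiffOn ℝ ∞ (fun p : ℝ × ℝ => (fv g p.1 p.2)⁻¹ • pu g p.1 p.2)
      (Set.univ ×ˢ Set.Ico 0 T) :=
    (ContDiffOn.inv (sm_v hg hi) (fun p hp => (v_pos hi hp.2 p.1).ne')).smul hg.pu
  refine h1.congr fun p _ => ?_
  unfold fT fv tang dsC
  rw [Complex.real_smul, Complex.ofReal_inv, div_eq_inv_mul]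
  rfl

theorem sm_k (hg : Sm T g) (hi : ∀ t ∈ Ico 0 T, ∀ u, deriv (fun u' => g u' t) u ≠ 0) :
    Sm T (fk g) := by
  have h2 : ContDiffOn ℝ ∞ (fun p : ℝ × ℝ => (fv g p.1 p.2)⁻¹ • pu (fT g) p.1 p.2)
      (Set.univ ×ˢ Set.Ico 0 T) :=
    (ContDiffOn.inv (sm_v hg hi) (fun p hp => (v_pos hi hp.2 p.1).ne')).smul (sm_T hg hi).pu
  have h3 : ContDiffOn ℝ ∞ (fun p : ℝ × ℝ => Complex.I * fT g p.1 p.2)
      (Set.univ ×ˢ Set.Ico 0 T) := contDiffOn_const.mul (sm_T hg hi)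
  refine (h2.inner ℝ h3).congr fun p _ => ?_
  unfold fk curv dsC nor
  rw [Complex.real_smul, Complex.ofReal_inv, ← div_eq_inv_mul]
  rfl

theorem sm_k1 (hg : Sm T g) (hi : ∀ t ∈ Ico 0 T, ∀ u, deriv (fun u' => g u' t) u ≠ 0) :
    Sm T (fk1 g) :=
  (sm_k hg hi).pu.div (sm_v hg hi) fun _ ht u => (v_pos hi ht u).ne'

/-- the (one-sided at `t = 0`) time derivative -/
noncomputable def gt (T : ℝ) (g : ℝ → ℝ → ℂ) (u t : ℝ) : ℂ :=
  fderivWithin ℝ (fun q : ℝ × ℝ => g q.1 q.2) (D T) (u, t) (0, 1)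

theorem sm_gt (hg : Sm T g) : Sm T (gt T g) := by
  have h1 : ContDiffOn ℝ ∞ (fderivWithin ℝ (fun q : ℝ × ℝ => g q.1 q.2) (D T)) (D T) :=
    ContDiffOn.fderivWithin hg (uD T) (by simp)
  exact h1.clm_apply contDiffOn_const

theorem gt_hasDerivWithinAt (hg : Sm T g) {t : ℝ} (ht : t ∈ Ico 0 T) (u : ℝ) :
    HasDerivWithinAt (fun t' => g u t') (gt T g u t) (Ico 0 T) t := by
  have h1 := hg.hasFDerivWithinAt (p := (u, t)) ht
  have h2 : HasDerivWithinAt (fun t' : ℝ => ((u, t') : ℝ × ℝ)) (0, 1) (Ico 0 T) t :=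
    ((hasDerivAt_const t u).prodMk (hasDerivAt_id t)).hasDerivWithinAt
  have hm : Set.MapsTo (fun t' : ℝ => ((u, t') : ℝ × ℝ)) (Ico 0 T)
      ((Set.univ : Set ℝ) ×ˢ Set.Ico (0 : ℝ) T) := fun x hx => ⟨Set.mem_univ _, hx⟩
  exact HasFDerivWithinAt.comp_hasDerivWithinAt t h1 h2 hm

theorem gt_periodic (hg : Sm T g) (hc : ∀ t ∈ Ico 0 T, ∀ u, g (u + 1) t = g u t) :
    ∀ t ∈ Ico 0 T, ∀ u, gt T g (u + 1) t = gt T g u t := by
  intro t ht u
  have h1 := gt_hasDerivWithinAt hg ht (u + 1)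
  have h2 : HasDerivWithinAt (fun t' => g u t') (gt T g (u + 1) t) (Ico 0 T) t :=
    h1.congr (fun s hs => (hc s hs u).symm) (hc t ht u).symm
  exact (uniqueDiffOn_Ico 0 T t ht).eq_deriv _ h2 (gt_hasDerivWithinAt hg ht u)

theorem gt_eq (hg : Sm T g) {t : ℝ} (ht : t ∈ Ioo 0 T) (u : ℝ) :
    deriv (fun t' => g u t') t = gt T g u t :=
  ((gt_hasDerivWithinAt hg ⟨ht.1.le, ht.2⟩ u).hasDerivAt (Ico_mem_nhds ht.1 ht.2)).deriv

theorem decomp {τ : ℂ} (hτ : ‖τ‖ = 1) (z : ℂ) :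
    z = (⟪z, τ⟫_ℝ : ℂ) * τ + (⟪z, Complex.I * τ⟫_ℝ : ℂ) * (Complex.I * τ) := by
  have h1 : τ.re * τ.re + τ.im * τ.im = 1 := by
    have := Complex.normSq_eq_norm_sq τ
    rw [hτ, Complex.normSq_apply] at this
    simpa using this
  rw [Complex.inner, Complex.inner]
  apply Complex.ext
  · simp only [Complex.add_re, Complex.mul_re, Complex.mul_im, Complex.ofReal_re,
      Complex.ofReal_im, Complex.I_re, Complex.I_im, Complex.conj_re, Complex.conj_im]
    linear_combination (-z.re) * h1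
  · simp only [Complex.add_im, Complex.mul_re, Complex.mul_im, Complex.ofReal_re,
      Complex.ofReal_im, Complex.I_re, Complex.I_im, Complex.conj_re, Complex.conj_im]
    linear_combination (-z.im) * h1

/-- reparametrisation of a flow with the right normal velocity -/
theorem exists_isFlow {S : ℝ} (hS : 0 < S) (hST : S < T) (hg : Sm T g)
    (hc : ∀ t ∈ Ico 0 T, ∀ u, g (u + 1) t = g u t)
    (hi : ∀ t ∈ Ico 0 T, ∀ u, deriv (fun u' => g u' t) u ≠ 0)
    (hf : ∀ t ∈ Ioo 0 T, ∀ u, ⟪deriv (fun t' => g u t') t, nor (fun u' => g u' t) u⟫_ℝ =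
      -elF (fun u' => g u' t) u) :
    ∃ γ : ℝ → ℝ → ℂ, IsFlow γ S ∧ (∀ u, γ u 0 = g u 0) ∧
      ∀ t ∈ Ico 0 S, ∀ u, ∃ v, γ u t = g v t := by
  -- the tangential velocity
  set W : ℝ → ℝ → ℝ := fun u t => ⟪gt T g u t, fT g u t⟫_ℝ with hWdef
  have hW : Sm T W := ContDiffOn.inner ℝ (sm_gt hg) (sm_T hg hi)
  set w : ℝ → ℝ → ℝ := fun u t => -W u t / fv g u t with hwdef
  have hw : Sm T w :=
    Sm.div (ContDiffOn.neg hW) (sm_v hg hi) fun t ht u => (v_pos hi ht u).ne'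
  have hpu : ∀ t ∈ Ico 0 T, ∀ u, deriv (fun u' => g u' t) (u + 1) = deriv (fun u' => g u' t) u := by
    intro t ht u
    have h1 : (fun u' => g (u' + 1) t) = fun u' => g u' t := funext fun x => hc t ht x
    rw [← deriv_comp_add_const (fun u' => g u' t) 1 u, h1]
  have hpv : ∀ t ∈ Ico 0 T, ∀ u, fv g (u + 1) t = fv g u t := by
    intro t ht u
    unfold fv speed sl
    rw [hpu t ht u]
  have hpT : ∀ t ∈ Ico 0 T, ∀ u, fT g (u + 1) t = fT g u t := by
    intro t ht u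
    have h1 := hpv t ht u
    unfold fv at h1
    unfold fT tang dsC
    rw [h1]
    unfold sl
    rw [hpu t ht u]
  have hwp : ∀ t ∈ Ico 0 T, ∀ u, w (u + 1) t = w u t := by
    intro t ht u
    simp only [hwdef, hWdef]
    rw [hpv t ht u, hpT t ht u, gt_periodic hg hc t ht u]
  obtain ⟨ψ, hψ, hψ0, hψp, hψt, hψu⟩ := exists_flow hS hST hw hwp
  have hI : ∀ {t : ℝ}, t ∈ Ico 0 S → t ∈ Ico 0 T := fun h => ⟨h.1, h.2.trans hST⟩
  have hmaps : MapsTo (fun q : ℝ × ℝ => ((ψ q.1 q.2, q.2) : ℝ × ℝ)) (D S) (D T) := fun q hq =>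
    ⟨mem_univ _, hI hq.2⟩
  have hpair : ContDiffOn ℝ ∞ (fun q : ℝ × ℝ => ((ψ q.1 q.2, q.2) : ℝ × ℝ)) (D S) :=
    ContDiffOn.prodMk hψ contDiff_snd.contDiffOn
  have hsl : ∀ t ∈ Ico 0 T, Differentiable ℝ (fun u => g u t) := fun t ht u =>
    (hg.hasDerivAt_u ht u).differentiableAt
  refine ⟨fun u t => g (ψ u t) t, ⟨?_, ?_, ?_, ?_⟩, fun u => by show g (ψ u 0) 0 = g u 0; rw [hψ0 u],
    fun t _ u => ⟨ψ u t, rfl⟩⟩
  · exact ContDiffOn.comp hg hpair hmaps
  · intro t ht u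
    rw [hψp t ht u]
    exact hc t (hI ht) _
  · intro t ht u
    obtain ⟨d, hd, hdd⟩ := hψu t ht u
    have h1 := ((hsl t (hI ht)) (ψ u t)).hasDerivAt.scomp u hdd
    rw [show (fun u' => g (ψ u' t) t) = (fun u => g u t) ∘ fun x => ψ x t from rfl, h1.deriv]
    exact smul_ne_zero hd.ne' (hi t (hI ht) _)
  · intro t ht u
    have ht' : t ∈ Ico 0 S := ⟨ht.1.le, ht.2⟩
    have htT : t ∈ Ioo 0 T := ⟨ht.1, ht.2.trans hST⟩
    choose d hd hdd using hψu t ht'
    have hT : Differentiable ℝ (tang (fun u => g u t)) := fun v =>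
      ((sm_T hg hi).hasDerivAt_u (hI ht') v).differentiableAt
    have hk : Differentiable ℝ (curv (fun u => g u t)) := fun v =>
      ((sm_k hg hi).hasDerivAt_u (hI ht') v).differentiableAt
    have hk1 : Differentiable ℝ (dsR (fun u => g u t) (curv (fun u => g u t))) := fun v =>
      ((sm_k1 hg hi).hasDerivAt_u (hI ht') v).differentiableAt
    have hF : elF (fun u' => g (ψ u' t) t) u = elF (fun u' => g u' t) (ψ u t) :=
      elF_comp (c := fun u' => g u' t) (φ := fun u' => ψ u' t) hdd hd (hsl t (hI ht')) hT hk hk1 u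
    have hN : nor (fun u' => g (ψ u' t) t) u = nor (fun u' => g u' t) (ψ u t) :=
      nor_comp (c := fun u' => g u' t) (φ := fun u' => ψ u' t) hdd hd (hsl t (hI ht')) u
    rw [hF, hN]
    -- the chain rule
    have h1 : HasFDerivAt (fun p : ℝ × ℝ => g p.1 p.2)
        (fderiv ℝ (fun p : ℝ × ℝ => g p.1 p.2) (ψ u t, t)) (ψ u t, t) :=
      ((hg.contDiffAt htT (ψ u t)).differentiableAt (by simp)).hasFDerivAt
    have h2 : HasDerivAt (fun t' : ℝ => ((ψ u t', t') : ℝ × ℝ)) (w (ψ u t) t, 1) t :=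
      (hψt t ht u).prodMk (hasDerivAt_id t)
    have h3 := HasFDerivAt.comp_hasDerivAt (f := fun t' : ℝ => ((ψ u t', t') : ℝ × ℝ)) t h1 h2
    have h4 : fderiv ℝ (fun p : ℝ × ℝ => g p.1 p.2) (ψ u t, t) (w (ψ u t) t, 1) =
        w (ψ u t) t • pu g (ψ u t) t + gt T g (ψ u t) t := by
      have h5 : ((w (ψ u t) t, 1) : ℝ × ℝ) = w (ψ u t) t • (1, 0) + (0, 1) := by
        ext <;> simp
      rw [h5, map_add, map_smul, ← hg.pu_eq' htT (ψ u t), ← hg.pt_eq htT (ψ u t)]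
      rw [← gt_eq hg htT (ψ u t)]
      rfl
    have h5 : deriv (fun t' => g (ψ u t') t') t =
        w (ψ u t) t • pu g (ψ u t) t + gt T g (ψ u t) t := by
      rw [← h4]; exact h3.deriv
    rw [h5]
    set v := ψ u t with hv
    have h6 : pu g v t = (fv g v t : ℂ) * fT g v t := deriv_c (hi t (hI ht') v)
    have h7 : (fv g v t) ≠ 0 := (v_pos hi (hI ht') v).ne'
    have h8 : ‖fT g v t‖ = 1 := norm_tang (hi t (hI ht') v)
    have h9 := decomp h8 (gt T g v t)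
    have h10 : ⟪gt T g v t, Complex.I * fT g v t⟫_ℝ = -elF (fun u' => g u' t) v := by
      rw [← hf t htT v, ← gt_eq hg htT v]
      rfl
    rw [h10] at h9
    have h11 : nor (fun u' => g u' t) v = Complex.I * fT g v t := rfl
    rw [h11, h6, Complex.real_smul]
    have h12 : (w v t : ℂ) * ((fv g v t : ℂ) * fT g v t) = -(W v t : ℂ) * fT g v t := by
      have h13 : w v t * fv g v t = -W v t := by
        simp only [hwdef]
        rw [div_mul_cancel₀ _ h7]
      rw [← mul_assoc, ← Complex.ofReal_mul, h13, Complex.ofReal_neg]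
    rw [h12]
    rw [h9]
    have h14 : (⟪gt T g v t, fT g v t⟫_ℝ : ℂ) = (W v t : ℂ) := rfl
    rw [h14]
    push_cast
    ring

end family

end Pool.Agent.helper69.EM
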