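import Pool.Agent.helper69.EM.PrimX

/-!
# EM (MP_278900_an): change of time

`exists_inverse`: the inverse of `τ ↦ ∫₀^τ ℓ` is smooth and solves `r' = 1 / ℓ(r)`.
-/

set_option autoImplicit false
set_option linter.unusedSectionVars false

open scoped Real ContDiff Topology
open MeasureTheory intervalIntegral Set Filter

namespace Pool.Agent.helper69.EM

/-- a 1D criterion on `[0, T)` -/
theorem contDiffOn_succ_of_deriv {T : ℝ} {n : ℕ} {f f' : ℝ → ℝ}
    (hf : ∀ t ∈ Ico 0 T, HasDerivWithinAt f (f' t) (Ico 0 T) t)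
    (hn : ContDiffOn ℝ n f' (Ico 0 T)) : ContDiffOn ℝ (n + 1 : ℕ) f (Ico 0 T) := by
  have h1 : ContDiffOn ℝ ((n : ℕ) + 1) f (Ico 0 T) := by
    refine (contDiffOn_succ_iff_derivWithin (uniqueDiffOn_Ico 0 T)).2
      ⟨fun t ht => (hf t ht).differentiableWithinAt, fun h => by simp at h, ?_⟩
    exact hn.congr fun t ht => (hf t ht).derivWithin (uniqueDiffOn_Ico 0 T t ht)
  exact_mod_cast h1

theorem exists_inverse {S s0 T : ℝ} {l : ℝ → ℝ} (hl : ContDiffOn ℝ ∞ l (Ico 0 S))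
    (hpos : ∀ τ ∈ Ico 0 S, 0 < l τ) (hs0 : s0 ∈ Ico 0 S) (hTs : T < ∫ σ in (0 : ℝ)..s0, l σ) :
    ∃ r : ℝ → ℝ, ContDiffOn ℝ ∞ r (Ico 0 T) ∧ r 0 = 0 ∧ (∀ t ∈ Ico 0 T, r t ∈ Ico 0 S) ∧
      (∀ t ∈ Ioo 0 T, r t ∈ Ioo 0 S ∧ HasDerivAt r (l (r t))⁻¹ t) ∧
      ∀ t ∈ Ico 0 T, ∫ σ in (0 : ℝ)..(r t), l σ = t := by
  -- extend `l` by constants
  set L : ℝ → ℝ := fun τ => l (max 0 (min τ s0)) with hL
  have hmem : ∀ τ : ℝ, max 0 (min τ s0) ∈ Ico 0 S := fun τ =>
    ⟨le_max_left _ _, lt_of_le_of_lt (max_le hs0.1 (min_le_right _ _)) hs0.2⟩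
  have hLc : Continuous L := hl.continuousOn.comp_continuous (continuous_clamp s0) hmem
  have hLpos : ∀ τ, 0 < L τ := fun τ => hpos _ (hmem τ)
  have hLeq : ∀ τ ∈ Icc 0 s0, L τ = l τ := by
    intro τ hτ
    simp only [hL]
    rw [clamp_eq hτ]
  set F : ℝ → ℝ := fun τ => ∫ σ in (0 : ℝ)..τ, L σ with hF
  have hFd : ∀ τ, HasDerivAt F (L τ) τ := fun τ => (hLc.integral_hasStrictDerivAt 0 τ).hasDerivAt
  have hFm : StrictMono F := strictMono_of_deriv_pos fun τ => by
    rw [(hFd τ).deriv]; exact hLpos τ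
  have hFc : Continuous F := continuous_iff_continuousAt.2 fun τ => (hFd τ).continuousAt
  have hF0 : F 0 = 0 := by simp [hF]
  -- a lower bound for `L`
  obtain ⟨c, hc0, hc⟩ : ∃ c : ℝ, 0 < c ∧ ∀ τ, c ≤ L τ := by
    obtain ⟨x, hx, hmin⟩ := (isCompact_Icc (a := (0 : ℝ)) (b := s0)).exists_isMinOn
      ⟨0, le_refl _, hs0.1⟩ hLc.continuousOn
    refine ⟨L x, hLpos x, fun τ => ?_⟩
    have h1 : max 0 (min τ s0) ∈ Icc 0 s0 := ⟨le_max_left _ _, max_le hs0.1 (min_le_right _ _)⟩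
    have h2 := hmin h1
    simp only [mem_ofPred_eq] at h2
    refine h2.trans (le_of_eq ?_)
    rw [hLeq _ h1]
  have hFge : ∀ τ, 0 ≤ τ → c * τ ≤ F τ := by
    intro τ hτ
    have : ∫ _ in (0 : ℝ)..τ, c ≤ F τ := by
      refine intervalIntegral.integral_mono_on hτ (by simp) (hLc.intervalIntegrable _ _)
        fun σ _ => hc σ
    simpa [mul_comm] using this
  have hFle : ∀ τ, τ ≤ 0 → F τ ≤ c * τ := by
    intro τ hτ
    have h1 : ∫ _ in τ..(0 : ℝ), c ≤ ∫ σ in τ..(0 : ℝ), L σ := by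
      refine intervalIntegral.integral_mono_on hτ (by simp) (hLc.intervalIntegrable _ _)
        fun σ _ => hc σ
    have h2 : F τ = -∫ σ in τ..(0 : ℝ), L σ := by
      simp only [hF]; rw [intervalIntegral.integral_symm]
    rw [h2]
    simp only [intervalIntegral.integral_const, smul_eq_mul] at h1
    linarith
  have hsurj : Function.Surjective F := by
    refine hFc.surjective ?_ ?_
    · refine tendsto_atTop_mono' atTop (f₁ := fun τ => c * τ) ?_
        (tendsto_id.const_mul_atTop hc0)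
      filter_upwards [eventually_ge_atTop 0] with τ hτ using hFge τ hτ
    · have h3 : F ≤ᶠ[atBot] fun τ => c * τ := by
        filter_upwards [eventually_le_atBot 0] with τ hτ using hFle τ hτ
      exact tendsto_atBot_mono' atBot h3 (tendsto_id.const_mul_atBot hc0)
  set e : ℝ ≃o ℝ := hFm.orderIsoOfSurjective F hsurj with he
  have heF : ∀ τ, e τ = F τ := fun τ => rfl
  set r : ℝ → ℝ := fun t => e.symm t with hr
  have hrc : Continuous r := e.symm.continuous
  have hFr : ∀ t, F (r t) = t := fun t => e.apply_symm_apply t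
  have hrm : StrictMono r := e.symm.strictMono
  have hrd : ∀ t, HasDerivAt r (L (r t))⁻¹ t := fun t =>
    HasDerivAt.of_local_left_inverse hrc.continuousAt (hFd (r t)) (hLpos _).ne'
      (Eventually.of_forall hFr)
  have hr0 : r 0 = 0 := by
    have : r (F 0) = 0 := e.symm_apply_apply 0
    rwa [hF0] at this
  have hFs0 : F s0 = ∫ σ in (0 : ℝ)..s0, l σ := by
    simp only [hF]
    refine intervalIntegral.integral_congr fun σ hσ => ?_
    rw [uIcc_of_le hs0.1] at hσ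
    exact hLeq σ hσ
  have hrs : ∀ t, t < T → r t < s0 := by
    intro t ht
    have h1 : r (F s0) = s0 := e.symm_apply_apply s0
    rw [← h1]
    apply hrm
    rw [hFs0]
    exact ht.trans hTs
  have hrpos : ∀ t, 0 ≤ t → 0 ≤ r t := fun t ht => by
    rw [← hr0]; exact hrm.monotone ht
  have hrpos' : ∀ t, 0 < t → 0 < r t := fun t ht => by
    have := hrm ht
    rwa [hr0] at this
  have hmaps : MapsTo r (Ico 0 T) (Ico 0 S) := fun t ht =>
    ⟨hrpos t ht.1, (hrs t ht.2).trans hs0.2⟩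
  have hLr : ∀ t ∈ Ico 0 T, L (r t) = l (r t) := fun t ht =>
    hLeq _ ⟨hrpos t ht.1, (hrs t ht.2).le⟩
  have hn : ∀ n : ℕ, ContDiffOn ℝ n r (Ico 0 T) := by
    intro n
    induction n with
    | zero => rw [Nat.cast_zero, contDiffOn_zero]; exact hrc.continuousOn
    | succ n ih =>
      refine contDiffOn_succ_of_deriv (f' := fun t => (l (r t))⁻¹) ?_ ?_
      · intro t ht
        have := (hrd t).hasDerivWithinAt (s := Ico 0 T)
        rwa [hLr t ht] at this
      · refine ContDiffOn.inv ?_ fun t ht => (hpos _ (hmaps ht)).ne'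
        exact ((contDiffOn_infty.1 hl) n).comp ih hmaps
  refine ⟨r, contDiffOn_infty.2 hn, hr0, hmaps, fun t ht => ⟨⟨hrpos' t ht.1, (hmaps
    ⟨ht.1.le, ht.2⟩).2⟩, ?_⟩, fun t ht => ?_⟩
  · have := hrd t
    rwa [hLr t ⟨ht.1.le, ht.2⟩] at this
  · have h1 := hFr t
    simp only [hF] at h1
    refine Eq.trans ?_ h1
    refine intervalIntegral.integral_congr fun σ hσ => ?_
    rw [uIcc_of_le (hrpos t ht.1)] at hσ
    exact (hLeq σ ⟨hσ.1, hσ.2.trans (hrs t ht.2).le⟩).symm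

end Pool.Agent.helper69.EM
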