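import Pool.Agent.helper69.EM.Prim

/-!
# EM (MP_278900_an): the primitive in the space variable

`contDiffOn_primX`: `∫₀ˣ g y t dy` is as smooth on the slab as `g`.
-/

set_option autoImplicit false
set_option linter.unusedSectionVars false

open scoped Real ContDiff Topology
open MeasureTheory intervalIntegral Set Filter

namespace Pool.Agent.helper69.EM

variable {E : Type} [NormedAddCommGroup E] [NormedSpace ℝ E]

/-- the (one-sided at `t = 0`) time derivative -/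
noncomputable def gτ (S : ℝ) (g : ℝ → ℝ → E) (u t : ℝ) : E :=
  fderivWithin ℝ (fun q : ℝ × ℝ => g q.1 q.2) (D S) (u, t) (0, 1)

theorem gτ_contDiffOn {S : ℝ} {n : ℕ} {g : ℝ → ℝ → E}
    (hg : ContDiffOn ℝ (n + 1 : ℕ) (fun q : ℝ × ℝ => g q.1 q.2) (D S)) :
    ContDiffOn ℝ n (fun q : ℝ × ℝ => gτ S g q.1 q.2) (D S) := by
  have h1 : ContDiffOn ℝ n (fderivWithin ℝ (fun q : ℝ × ℝ => g q.1 q.2) (D S)) (D S) :=
    hg.fderivWithin (uD S) (by norm_cast)
  exact h1.clm_apply contDiffOn_const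

theorem gτ_hasDerivWithinAt {S : ℝ} {n : ℕ} {g : ℝ → ℝ → E}
    (hg : ContDiffOn ℝ (n + 1 : ℕ) (fun q : ℝ × ℝ => g q.1 q.2) (D S)) {t : ℝ} (ht : t ∈ Ico 0 S)
    (u : ℝ) : HasDerivWithinAt (fun t' => g u t') (gτ S g u t) (Ico 0 S) t := by
  have h1 : HasFDerivWithinAt (fun q : ℝ × ℝ => g q.1 q.2)
      (fderivWithin ℝ (fun q : ℝ × ℝ => g q.1 q.2) (D S) (u, t)) (D S) (u, t) :=
    ((hg.differentiableOn (by norm_cast)) (u, t) ⟨mem_univ _, ht⟩).hasFDerivWithinAt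
  have h2 : HasDerivWithinAt (fun t' : ℝ => ((u, t') : ℝ × ℝ)) (0, 1) (Ico 0 S) t :=
    ((hasDerivAt_const t u).prodMk (hasDerivAt_id t)).hasDerivWithinAt
  have hm : Set.MapsTo (fun t' : ℝ => ((u, t') : ℝ × ℝ)) (Ico 0 S) (D S) :=
    fun x hx => ⟨Set.mem_univ _, hx⟩
  exact HasFDerivWithinAt.comp_hasDerivWithinAt t h1 h2 hm

theorem continuousOn_primX {S : ℝ} {g : ℝ → ℝ → E}
    (hg : ContinuousOn (fun q : ℝ × ℝ => g q.1 q.2) (D S)) :
    ContinuousOn (fun q : ℝ × ℝ => ∫ y in (0 : ℝ)..q.1, g y q.2) (D S) := by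
  intro p hp
  have hp2 : p.2 ∈ Ico 0 S := hp.2
  set S' : ℝ := (p.2 + S) / 2 with hS'
  have hS1 : p.2 < S' := by rw [hS']; linarith [hp2.2]
  have hS2 : S' < S := by rw [hS']; linarith [hp2.2]
  have hS0 : 0 ≤ S' := hp2.1.trans hS1.le
  have h1 := continuous_of_clamp hS0 hS2 hg
  have h2 : Continuous fun q : ℝ × ℝ => ∫ y in (0 : ℝ)..q.1, g y (max 0 (min q.2 S')) := by
    refine continuous_parametric_intervalIntegral_of_continuous
      (f := fun (q : ℝ × ℝ) y => g y (max 0 (min q.2 S'))) ?_ continuous_fst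
    have h3 : Continuous fun x : (ℝ × ℝ) × ℝ => ((x.2, x.1.2) : ℝ × ℝ) := by fun_prop
    exact h1.comp h3
  have h3 : (fun q : ℝ × ℝ => ∫ y in (0 : ℝ)..q.1, g y q.2) =ᶠ[𝓝[D S] p]
      fun q => ∫ y in (0 : ℝ)..q.1, g y (max 0 (min q.2 S')) := by
    have h4 : {q : ℝ × ℝ | q.2 < S'} ∈ 𝓝 p :=
      (isOpen_lt continuous_snd continuous_const).mem_nhds hS1
    filter_upwards [inter_mem self_mem_nhdsWithin (mem_nhdsWithin_of_mem_nhds h4)] with q hq
    have hq2 : q.2 < S' := hq.2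
    rw [clamp_eq ⟨hq.1.2.1, hq2.le⟩]
  exact (h2.continuousWithinAt).congr_of_eventuallyEq h3 (h3.eq_of_nhdsWithin hp)

theorem cont_slice {S : ℝ} {g : ℝ → ℝ → E}
    (hg : ContinuousOn (fun q : ℝ × ℝ => g q.1 q.2) (D S)) {t : ℝ} (ht : t ∈ Ico 0 S) :
    Continuous fun y => g y t :=
  hg.comp_continuous (by fun_prop : Continuous fun y : ℝ => ((y, t) : ℝ × ℝ))
    fun y => ⟨mem_univ _, ht⟩

theorem cont_slice' {S : ℝ} {g : ℝ → ℝ → E}
    (hg : ContinuousOn (fun q : ℝ × ℝ => g q.1 q.2) (D S)) (y : ℝ) :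
    ContinuousOn (fun t => g y t) (Ico 0 S) :=
  hg.comp (by fun_prop : ContinuousOn (fun t : ℝ => ((y, t) : ℝ × ℝ)) (Ico 0 S))
    fun t ht => ⟨mem_univ _, ht⟩

variable [CompleteSpace E]

/-- fundamental theorem in time -/
theorem int_gτ {S : ℝ} {n : ℕ} {g : ℝ → ℝ → E}
    (hg : ContDiffOn ℝ (n + 1 : ℕ) (fun q : ℝ × ℝ => g q.1 q.2) (D S)) {t : ℝ} (ht : t ∈ Ico 0 S)
    (y : ℝ) : ∫ s in (0 : ℝ)..t, gτ S g y s = g y t - g y 0 := by
  have hsub : Icc 0 t ⊆ Ico 0 S := fun s hs => ⟨hs.1, lt_of_le_of_lt hs.2 ht.2⟩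
  refine intervalIntegral.integral_eq_sub_of_hasDerivAt_of_le ht.1
    ((cont_slice' hg.continuousOn y).mono hsub) (fun s hs => ?_) ?_
  · exact (gτ_hasDerivWithinAt hg (hsub ⟨hs.1.le, hs.2.le⟩) y).hasDerivAt
      (Ico_mem_nhds hs.1 (hs.2.trans ht.2))
  · exact ((cont_slice' (gτ_contDiffOn hg).continuousOn y).mono hsub).intervalIntegrable_of_Icc ht.1

theorem hasDerivWithinAt_primX {S : ℝ} {n : ℕ} {g : ℝ → ℝ → E}
    (hg : ContDiffOn ℝ (n + 1 : ℕ) (fun q : ℝ × ℝ => g q.1 q.2) (D S)) {t : ℝ} (ht : t ∈ Ico 0 S)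
    (x : ℝ) : HasDerivWithinAt (fun t' => ∫ y in (0 : ℝ)..x, g y t')
      (∫ y in (0 : ℝ)..x, gτ S g y t) (Ico 0 S) t := by
  have hc : ContinuousOn (fun q : ℝ × ℝ => gτ S g q.1 q.2) (D S) := (gτ_contDiffOn hg).continuousOn
  have h1 : ∀ t' ∈ Ico 0 S, ∫ y in (0 : ℝ)..x, g y t' = (∫ y in (0 : ℝ)..x, g y 0) +
      ∫ s in (0 : ℝ)..t', ∫ y in (0 : ℝ)..x, gτ S g y s := by
    intro t' ht'
    have h0 : (0 : ℝ) ∈ Ico 0 S := ⟨le_refl _, lt_of_le_of_lt ht'.1 ht'.2⟩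
    have h2 : ∀ y, g y t' = g y 0 + ∫ s in (0 : ℝ)..t', gτ S g y s := by
      intro y; rw [int_gτ hg ht' y]; abel
    have h3 : ∫ y in (0 : ℝ)..x, g y t' =
        ∫ y in (0 : ℝ)..x, (g y 0 + ∫ s in (0 : ℝ)..t', gτ S g y s) :=
      intervalIntegral.integral_congr fun y _ => h2 y
    have h4 : Continuous fun y => ∫ s in (0 : ℝ)..t', gτ S g y s := by
      exact cont_slice (g := fun y t => ∫ s in (0 : ℝ)..t, gτ S g y s) (continuousOn_prim hc) ht'
    rw [h3, intervalIntegral.integral_add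
      ((cont_slice hg.continuousOn h0).intervalIntegrable _ _) (h4.intervalIntegrable _ _)]
    congr 1
    refine intervalIntegral_intervalIntegral_swap ?_
    have hK : IsCompact (uIcc 0 x ×ˢ uIcc 0 t') := isCompact_uIcc.prod isCompact_uIcc
    have h5 : ContinuousOn (Function.uncurry fun y s => gτ S g y s) (uIcc 0 x ×ˢ uIcc 0 t') := by
      refine hc.mono fun q hq => ⟨mem_univ _, ?_⟩
      have := hq.2
      rw [uIcc_of_le ht'.1] at this
      exact ⟨this.1, lt_of_le_of_lt this.2 ht'.2⟩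
    exact (h5.integrableOn_compact hK).mono_set (prod_mono uIoc_subset_uIcc uIoc_subset_uIcc)
  have h2 := (hasDerivWithinAt_prim (g := fun x s => ∫ y in (0 : ℝ)..x, gτ S g y s)
    (continuousOn_primX hc) ht x).const_add
    (∫ y in (0 : ℝ)..x, g y 0)
  exact h2.congr h1 (h1 t ht)

/-- the primitive in `x` is as smooth as the integrand -/
theorem contDiffOn_primX {S : ℝ} (n : ℕ) : ∀ g : ℝ → ℝ → E,
    ContDiffOn ℝ n (fun q : ℝ × ℝ => g q.1 q.2) (D S) →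
    ContDiffOn ℝ n (fun q : ℝ × ℝ => ∫ y in (0 : ℝ)..q.1, g y q.2) (D S) := by
  induction n with
  | zero =>
    intro g hg
    simp only [Nat.cast_zero, contDiffOn_zero] at hg ⊢
    exact continuousOn_primX hg
  | succ n ih =>
    intro g hg
    have hn : ContDiffOn ℝ n (fun q : ℝ × ℝ => g q.1 q.2) (D S) :=
      hg.of_le (by norm_cast; omega)
    refine contDiffOn_succ_of_partial (F := fun u t => ∫ y in (0 : ℝ)..u, g y t)
      (A := g) (B := fun u t => ∫ y in (0 : ℝ)..u, gτ S g y t) ?_ ?_ hn ?_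
    · intro t ht u
      exact ((cont_slice hg.continuousOn ht).integral_hasStrictDerivAt 0 u).hasDerivAt
    · intro t ht u
      exact hasDerivWithinAt_primX hg ht u
    · exact ih _ (gτ_contDiffOn hg)

/-- the integral over `[0, 1]` -/
theorem contDiffOn_int {S : ℝ} (n : ℕ) (g : ℝ → ℝ → E)
    (hg : ContDiffOn ℝ n (fun q : ℝ × ℝ => g q.1 q.2) (D S)) :
    ContDiffOn ℝ n (fun t : ℝ => ∫ y in (0 : ℝ)..1, g y t) (Ico 0 S) := by
  have h1 := contDiffOn_primX n g hg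
  have h2 : ContDiffOn ℝ n (fun t : ℝ => ((1, t) : ℝ × ℝ)) (Ico 0 S) :=
    (contDiff_const.prodMk contDiff_id).contDiffOn
  exact h1.comp h2 fun t ht => ⟨mem_univ _, ht⟩

end Pool.Agent.helper69.EM
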