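import Mathlib

/-!
# EM (MP_278900_an): weighted convolutions on `ℓ¹(ℤ; A)`

`A` is a commutative Banach algebra (later `C([0,h], ℝ)`).  `B κ f g n = ∑' m, κ n m • (f m * g (n - m))`
for a bounded kernel `κ`; `diag` applies bounded operators coefficientwise.
-/

set_option autoImplicit false
set_option linter.unusedSectionVars false

open scoped Real ENNReal
open Filter

namespace Pool.Agent.helper69.EM

section basic

variable {A : Type} [NormedAddCommGroup A]

/-- absolutely summable families -/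
abbrev L1 (A : Type) [NormedAddCommGroup A] : Type := lp (fun _ : ℤ => A) 1

theorem mem1 {f : ℤ → A} : Memℓp f 1 ↔ Summable fun n => ‖f n‖ := by
  rw [memℓp_gen_iff (by simp)]
  simp

theorem summ (f : L1 A) : Summable fun n => ‖f n‖ := mem1.1 (lp.memℓp f)

theorem norm1 (f : L1 A) : ‖f‖ = ∑' n, ‖f n‖ := by
  rw [lp.norm_eq_tsum_rpow (by simp)]
  simp

theorem le_norm1 (f : L1 A) (n : ℤ) : ‖f n‖ ≤ ‖f‖ := by
  rw [norm1]
  exact (summ f).le_tsum n fun _ _ => norm_nonneg _

end basic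

section conv

variable {A : Type} [NormedCommRing A] [NormedAlgebra ℝ A] [CompleteSpace A]

/-- a bounded kernel -/
structure Ker where
  c : ℤ → ℤ → ℝ
  M : ℝ
  M0 : 0 ≤ M
  hc : ∀ n m, |c n m| ≤ M

/-- the change of variables `(n, m) ↦ (m, n - m)` -/
def shear : ℤ × ℤ ≃ ℤ × ℤ where
  toFun p := (p.2, p.1 - p.2)
  invFun q := (q.1 + q.2, q.1)
  left_inv p := by simp
  right_inv q := by simp

theorem summable_prod_mul {a b : ℤ → ℝ} (ha : Summable a) (hb : Summable b) (ha0 : ∀ n, 0 ≤ a n)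
    (hb0 : ∀ n, 0 ≤ b n) : Summable fun p : ℤ × ℤ => a p.2 * b (p.1 - p.2) := by
  have h1 : Summable fun q : ℤ × ℤ => a q.1 * b q.2 := ha.mul_of_nonneg hb ha0 hb0
  exact (shear.summable_iff (f := fun q : ℤ × ℤ => a q.1 * b q.2)).2 h1

theorem tsum_prod_mul {a b : ℤ → ℝ} (ha : Summable a) (hb : Summable b) (ha0 : ∀ n, 0 ≤ a n)
    (hb0 : ∀ n, 0 ≤ b n) : ∑' n, ∑' m, a m * b (n - m) = (∑' n, a n) * ∑' n, b n := by
  have h1 : Summable fun q : ℤ × ℤ => a q.1 * b q.2 := ha.mul_of_nonneg hb ha0 hb0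
  have h2 := summable_prod_mul ha hb ha0 hb0
  rw [← h2.tsum_prod, ha.tsum_mul_tsum hb h1]
  exact shear.tsum_eq (fun q : ℤ × ℤ => a q.1 * b q.2)

/-- the summand -/
noncomputable def term (κ : Ker) (f g : ℤ → A) (n m : ℤ) : A := κ.c n m • (f m * g (n - m))

theorem norm_term_le (κ : Ker) (f g : ℤ → A) (n m : ℤ) :
    ‖term κ f g n m‖ ≤ κ.M * (‖f m‖ * ‖g (n - m)‖) := by
  unfold term
  rw [norm_smul, Real.norm_eq_abs]
  exact mul_le_mul (κ.hc n m) (norm_mul_le _ _) (norm_nonneg _) κ.M0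

theorem summable_maj (κ : Ker) {f g : ℤ → A} (hf : Summable fun n => ‖f n‖)
    (hg : Summable fun n => ‖g n‖) :
    Summable fun p : ℤ × ℤ => κ.M * (‖f p.2‖ * ‖g (p.1 - p.2)‖) :=
  (summable_prod_mul hf hg (fun _ => norm_nonneg _) (fun _ => norm_nonneg _)).mul_left _

theorem summable_maj_row (κ : Ker) {f g : ℤ → A} (hf : Summable fun n => ‖f n‖)
    (hg : Summable fun n => ‖g n‖) (n : ℤ) :
    Summable fun m => κ.M * (‖f m‖ * ‖g (n - m)‖) :=
  (summable_maj κ hf hg).prod_factor n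

theorem summable_term (κ : Ker) {f g : ℤ → A} (hf : Summable fun n => ‖f n‖)
    (hg : Summable fun n => ‖g n‖) (n : ℤ) : Summable fun m => term κ f g n m :=
  Summable.of_norm_bounded (summable_maj_row κ hf hg n) fun m => norm_term_le κ f g n m

theorem norm_tsum_term_le (κ : Ker) {f g : ℤ → A} (hf : Summable fun n => ‖f n‖)
    (hg : Summable fun n => ‖g n‖) (n : ℤ) :
    ‖∑' m, term κ f g n m‖ ≤ ∑' m, κ.M * (‖f m‖ * ‖g (n - m)‖) :=
  tsum_of_norm_bounded (summable_maj_row κ hf hg n).hasSum fun m => norm_term_le κ f g n m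

theorem summable_conv (κ : Ker) {f g : ℤ → A} (hf : Summable fun n => ‖f n‖)
    (hg : Summable fun n => ‖g n‖) : Summable fun n => ‖∑' m, term κ f g n m‖ :=
  Summable.of_nonneg_of_le (fun _ => norm_nonneg _) (fun n => norm_tsum_term_le κ hf hg n)
    (summable_maj κ hf hg).prod

theorem tsum_conv_le (κ : Ker) {f g : ℤ → A} (hf : Summable fun n => ‖f n‖)
    (hg : Summable fun n => ‖g n‖) :
    ∑' n, ‖∑' m, term κ f g n m‖ ≤ κ.M * ((∑' n, ‖f n‖) * ∑' n, ‖g n‖) := by
  refine ((summable_conv κ hf hg).tsum_le_tsum (fun n => norm_tsum_term_le κ hf hg n)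
    (summable_maj κ hf hg).prod).trans (le_of_eq ?_)
  rw [← tsum_prod_mul hf hg (fun _ => norm_nonneg _) (fun _ => norm_nonneg _), ← tsum_mul_left]
  refine tsum_congr fun n => ?_
  rw [tsum_mul_left]

/-- the kernel convolution -/
noncomputable def B (κ : Ker) (f g : L1 A) : L1 A :=
  ⟨fun n => ∑' m, term κ f g n m, mem1.2 (summable_conv κ (summ f) (summ g))⟩

theorem B_apply (κ : Ker) (f g : L1 A) (n : ℤ) : B κ f g n = ∑' m, term κ f g n m := rfl

theorem norm_B_le (κ : Ker) (f g : L1 A) : ‖B κ f g‖ ≤ κ.M * (‖f‖ * ‖g‖) := by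
  rw [norm1, norm1 f, norm1 g]
  exact tsum_conv_le κ (summ f) (summ g)

theorem B_sub_left (κ : Ker) (f f' g : L1 A) : B κ (f - f') g = B κ f g - B κ f' g := by
  apply lp.ext
  funext n
  rw [lp.coeFn_sub, Pi.sub_apply, B_apply, B_apply, B_apply,
    ← (summable_term κ (summ f) (summ g) n).tsum_sub (summable_term κ (summ f') (summ g) n)]
  refine tsum_congr fun m => ?_
  unfold term
  rw [lp.coeFn_sub, Pi.sub_apply, sub_mul, smul_sub]

theorem B_sub_right (κ : Ker) (f g g' : L1 A) : B κ f (g - g') = B κ f g - B κ f g' := by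
  apply lp.ext
  funext n
  rw [lp.coeFn_sub, Pi.sub_apply, B_apply, B_apply, B_apply,
    ← (summable_term κ (summ f) (summ g) n).tsum_sub (summable_term κ (summ f) (summ g') n)]
  refine tsum_congr fun m => ?_
  unfold term
  rw [lp.coeFn_sub, Pi.sub_apply, mul_sub, smul_sub]

/-- the difference of two products -/
theorem norm_B_sub_le (κ : Ker) (f f' g g' : L1 A) :
    ‖B κ f g - B κ f' g'‖ ≤ κ.M * (‖f - f'‖ * ‖g‖ + ‖f'‖ * ‖g - g'‖) := by
  have h : B κ f g - B κ f' g' = B κ (f - f') g + B κ f' (g - g') := by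
    rw [B_sub_left, B_sub_right]; abel
  rw [h, mul_add]
  exact (norm_add_le _ _).trans (add_le_add (norm_B_le κ _ _) (norm_B_le κ _ _))

end conv

section diag

variable {A A' : Type} [NormedAddCommGroup A] [NormedAddCommGroup A']

/-- coefficientwise bounded operators -/
structure Ops (A A' : Type) [NormedAddCommGroup A] [NormedAddCommGroup A'] where
  T : ℤ → A →+ A'
  M : ℝ
  M0 : 0 ≤ M
  hT : ∀ n x, ‖T n x‖ ≤ M * ‖x‖

noncomputable def diag (O : Ops A A') (f : L1 A) : L1 A' :=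
  ⟨fun n => O.T n (f n), mem1.2 (Summable.of_nonneg_of_le (fun _ => norm_nonneg _)
    (fun n => O.hT n (f n)) ((summ f).mul_left _))⟩

theorem diag_apply (O : Ops A A') (f : L1 A) (n : ℤ) : diag O f n = O.T n (f n) := rfl

theorem norm_diag_le (O : Ops A A') (f : L1 A) : ‖diag O f‖ ≤ O.M * ‖f‖ := by
  rw [norm1, norm1 f, ← tsum_mul_left]
  exact (summ (diag O f)).tsum_le_tsum (fun n => O.hT n (f n)) ((summ f).mul_left _)

theorem diag_sub (O : Ops A A') (f g : L1 A) : diag O (f - g) = diag O f - diag O g := by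
  apply lp.ext
  funext n
  rw [lp.coeFn_sub, Pi.sub_apply, diag_apply, diag_apply, diag_apply, lp.coeFn_sub, Pi.sub_apply,
    map_sub]

end diag

end Pool.Agent.helper69.EM
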