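import Pool.Agent.helper69.EM.Conv

/-!
# EM (MP_278900_an): Duhamel operators

`duh h λ x τ = ∫₀^τ e^{-λ(τ-σ)} x(σ) dσ` on `C([0,h], ℂ)`, with norm at most `√(h/λ)`.
-/

set_option autoImplicit false

open scoped Real ENNReal
open Filter Set MeasureTheory

namespace Pool.Agent.helper69.EM

/-- the time-dependent coefficients -/
abbrev CT (h : ℝ) : Type := C(Icc (0 : ℝ) h, ℂ)

section

variable {h : ℝ}

/-- extension of `x ∈ C([0,h])` by constants -/
noncomputable def ext (hh : 0 ≤ h) (x : CT h) : ℝ → ℂ := IccExtend hh x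

theorem continuous_ext (hh : 0 ≤ h) (x : CT h) : Continuous (ext hh x) :=
  x.continuous.Icc_extend'

theorem norm_ext_le (hh : 0 ≤ h) (x : CT h) (τ : ℝ) : ‖ext hh x τ‖ ≤ ‖x‖ :=
  x.norm_coe_le_norm _

theorem ext_of_mem (hh : 0 ≤ h) (x : CT h) {τ : ℝ} (hτ : τ ∈ Icc 0 h) :
    ext hh x τ = x ⟨τ, hτ⟩ := IccExtend_of_mem hh _ hτ

/-- the Duhamel integral of a function on the line -/
noncomputable def duhF (l : ℝ) (y : ℝ → ℂ) (τ : ℝ) : ℂ :=
  ∫ σ in (0 : ℝ)..τ, (Real.exp (-(l * (τ - σ))) : ℂ) * y σ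

theorem duhF_eq (l : ℝ) (y : ℝ → ℂ) (τ : ℝ) : duhF l y τ =
    (Real.exp (-(l * τ)) : ℂ) * ∫ σ in (0 : ℝ)..τ, (Real.exp (l * σ) : ℂ) * y σ := by
  unfold duhF
  rw [← intervalIntegral.integral_const_mul]
  refine intervalIntegral.integral_congr fun σ _ => ?_
  rw [← mul_assoc, ← Complex.ofReal_mul, ← Real.exp_add]
  congr 3
  ring

theorem hasDerivAt_duhF (l : ℝ) {y : ℝ → ℂ} (hy : Continuous y) (τ : ℝ) :
    HasDerivAt (duhF l y) (-(l : ℂ) * duhF l y τ + y τ) τ := by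
  have h1 : duhF l y = fun τ => (Real.exp (-(l * τ)) : ℂ) *
      ∫ σ in (0 : ℝ)..τ, (Real.exp (l * σ) : ℂ) * y σ := funext (duhF_eq l y)
  have h2 : Continuous fun σ : ℝ => (Real.exp (l * σ) : ℂ) * y σ := by fun_prop
  have h3 := (h2.integral_hasStrictDerivAt 0 τ).hasDerivAt
  have h4 : HasDerivAt (fun τ : ℝ => (Real.exp (-(l * τ)) : ℂ))
      ((Real.exp (-(l * τ)) * (-(l * 1)) : ℝ) : ℂ) τ :=
    (((hasDerivAt_id τ).const_mul l).neg.exp).ofReal_comp
  have h5 := h4.mul h3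
  rw [h1]
  refine h5.congr_deriv ?_
  have h6 : (Real.exp (-(l * τ)) : ℂ) * (Real.exp (l * τ) : ℂ) = 1 := by
    rw [← Complex.ofReal_mul, ← Real.exp_add]
    simp
  simp only
  push_cast
  push_cast at h6
  linear_combination (y τ) * h6

theorem continuous_duhF (l : ℝ) {y : ℝ → ℂ} (hy : Continuous y) : Continuous (duhF l y) :=
  continuous_iff_continuousAt.2 fun τ => (hasDerivAt_duhF l hy τ).continuousAt

theorem norm_duhF_le {l : ℝ} {y : ℝ → ℂ} {C τ : ℝ} (hτ : 0 ≤ τ)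
    (hC : ∀ σ ∈ Icc 0 τ, ‖y σ‖ ≤ C) :
    ‖duhF l y τ‖ ≤ C * ∫ σ in (0 : ℝ)..τ, Real.exp (-(l * (τ - σ))) := by
  unfold duhF
  rw [← intervalIntegral.integral_const_mul]
  refine intervalIntegral.norm_integral_le_of_norm_le hτ ?_ ?_
  · refine Eventually.of_forall fun σ hσ => ?_
    rw [norm_mul, Complex.norm_real, Real.norm_of_nonneg (Real.exp_pos _).le, mul_comm]
    exact mul_le_mul_of_nonneg_right (hC σ ⟨hσ.1.le, hσ.2⟩) (Real.exp_pos _).le
  · exact (Continuous.intervalIntegrable (by fun_prop) _ _)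

theorem int_exp_le_self {l : ℝ} (hl : 0 ≤ l) {τ : ℝ} (hτ : 0 ≤ τ) :
    ∫ σ in (0 : ℝ)..τ, Real.exp (-(l * (τ - σ))) ≤ τ := by
  have h1 : ∫ σ in (0 : ℝ)..τ, Real.exp (-(l * (τ - σ))) ≤ ∫ _ in (0 : ℝ)..τ, (1 : ℝ) := by
    refine intervalIntegral.integral_mono_on hτ (Continuous.intervalIntegrable (by fun_prop) _ _)
      (by simp) fun σ hσ => ?_
    rw [Real.exp_le_one_iff]
    have := mul_nonneg hl (sub_nonneg.2 hσ.2)
    linarith
  simpa using h1

theorem int_exp_le_inv {l : ℝ} (hl : 0 < l) {τ : ℝ} :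
    ∫ σ in (0 : ℝ)..τ, Real.exp (-(l * (τ - σ))) ≤ 1 / l := by
  have h1 : ∀ σ : ℝ, HasDerivAt (fun σ => Real.exp (-(l * (τ - σ))) / l)
      (Real.exp (-(l * (τ - σ)))) σ := by
    intro σ
    have h2 := ((((hasDerivAt_id σ).const_sub τ).const_mul l).neg.exp).div_const l
    refine h2.congr_deriv ?_
    simp only [id, Pi.neg_apply]
    field_simp
  rw [intervalIntegral.integral_eq_sub_of_hasDerivAt (fun σ _ => h1 σ)
    (Continuous.intervalIntegrable (by fun_prop) _ _)]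
  simp only [sub_self, mul_zero, neg_zero, Real.exp_zero]
  have : 0 < Real.exp (-(l * (τ - 0))) / l := div_pos (Real.exp_pos _) hl
  linarith

/-- `√(h / λ)` bounds the Duhamel integral -/
theorem int_exp_le_sqrt {l : ℝ} (hl : 0 < l) {τ : ℝ} (hτ : τ ∈ Icc 0 h) :
    ∫ σ in (0 : ℝ)..τ, Real.exp (-(l * (τ - σ))) ≤ √(h / l) := by
  have h0 : 0 ≤ ∫ σ in (0 : ℝ)..τ, Real.exp (-(l * (τ - σ))) :=
    intervalIntegral.integral_nonneg hτ.1 fun _ _ => (Real.exp_pos _).le
  apply Real.le_sqrt_of_sq_le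
  rw [sq, div_eq_mul_one_div]
  exact mul_le_mul ((int_exp_le_self hl.le hτ.1).trans hτ.2) (int_exp_le_inv hl) h0
    (hτ.1.trans hτ.2)

/-- the Duhamel operator -/
noncomputable def duh (hh : 0 ≤ h) (l : ℝ) : CT h →+ CT h where
  toFun x := ⟨fun τ => duhF l (ext hh x) τ,
    (continuous_duhF l (continuous_ext hh x)).comp continuous_subtype_val⟩
  map_zero' := by
    ext τ
    simp [duhF, ext, IccExtend]
  map_add' x y := by
    ext τ
    simp only [ContinuousMap.coe_mk, ContinuousMap.add_apply]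
    unfold duhF
    rw [← intervalIntegral.integral_add]
    · refine intervalIntegral.integral_congr fun σ _ => ?_
      simp only [ext, IccExtend, Function.comp]
      rw [ContinuousMap.add_apply, mul_add]
    · exact Continuous.intervalIntegrable (by have := continuous_ext hh x; fun_prop) _ _
    · exact Continuous.intervalIntegrable (by have := continuous_ext hh y; fun_prop) _ _

theorem duh_apply (hh : 0 ≤ h) (l : ℝ) (x : CT h) (τ : Icc (0 : ℝ) h) :
    duh hh l x τ = duhF l (ext hh x) τ := rfl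

theorem norm_duh_le (hh : 0 ≤ h) {l : ℝ} (hl : 0 < l) (x : CT h) :
    ‖duh hh l x‖ ≤ √(h / l) * ‖x‖ := by
  rw [ContinuousMap.norm_le _ (by positivity)]
  intro τ
  rw [duh_apply, mul_comm]
  refine (norm_duhF_le τ.2.1 (C := ‖x‖) fun σ _ => norm_ext_le hh x σ).trans ?_
  exact mul_le_mul_of_nonneg_left (int_exp_le_sqrt hl τ.2) (norm_nonneg _)

/-- `2πn` -/
noncomputable def kn (n : ℤ) : ℝ := 2 * π * n

theorem kn_zero : kn 0 = 0 := by simp [kn]

theorem kn_neg (n : ℤ) : kn (-n) = -kn n := by simp [kn]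

theorem one_le_abs_kn {n : ℤ} (hn : n ≠ 0) : 1 ≤ |kn n| := by
  unfold kn
  rw [abs_mul, abs_mul, abs_two, abs_of_pos Real.pi_pos]
  have h1 : (1 : ℝ) ≤ |(n : ℝ)| := by
    have := Int.one_le_abs hn
    exact_mod_cast this
  have h2 := Real.pi_gt_three
  nlinarith

/-- `(2πn)^j` times the Duhamel operator with `λ = (2πn)⁴`, `j = 1, 2` -/
noncomputable def J (hh : 0 ≤ h) (j : ℕ) (hj : j = 1 ∨ j = 2) : Ops (CT h) (CT h) where
  T n := (AddMonoidHom.mulLeft (algebraMap ℝ (CT h) (kn n ^ j))).comp (duh hh (kn n ^ 4))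
  M := √h
  M0 := Real.sqrt_nonneg _
  hT n x := by
    rw [AddMonoidHom.comp_apply, AddMonoidHom.coe_mulLeft, ← Algebra.smul_def, norm_smul,
      Real.norm_eq_abs, abs_pow]
    by_cases hn : n = 0
    · subst hn
      rw [kn_zero, abs_zero, zero_pow (by omega), zero_mul]
      positivity
    · have h1 := one_le_abs_kn hn
      have h4 : 0 < kn n ^ 4 := by
        have : kn n ≠ 0 := by
          intro h0; rw [h0, abs_zero] at h1; linarith
        positivity
      have h5 : |kn n| ^ j ≤ |kn n| ^ 2 := by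
        apply pow_le_pow_right₀ h1; omega
      have h6 : √(h / kn n ^ 4) = √h / |kn n| ^ 2 := by
        rw [Real.sqrt_div hh]
        congr 1
        rw [show kn n ^ 4 = (kn n ^ 2) ^ 2 by ring, Real.sqrt_sq (by positivity), sq_abs]
      calc |kn n| ^ j * ‖duh hh (kn n ^ 4) x‖
          ≤ |kn n| ^ 2 * (√(h / kn n ^ 4) * ‖x‖) :=
            mul_le_mul h5 (norm_duh_le hh h4 x) (norm_nonneg _) (by positivity)
        _ = √h * ‖x‖ := by
            rw [h6]
            have : |kn n| ^ 2 ≠ 0 := by positivity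
            field_simp

theorem J_apply (hh : 0 ≤ h) (j : ℕ) (hj : j = 1 ∨ j = 2) (f : L1 (CT h)) (n : ℤ)
    (τ : Icc (0 : ℝ) h) :
    diag (J hh j hj) f n τ = (kn n : ℂ) ^ j * duhF (kn n ^ 4) (ext hh (f n)) τ := by
  rw [diag_apply]
  show ((algebraMap ℝ (CT h) (kn n ^ j)) * duh hh (kn n ^ 4) (f n)) τ = _
  rw [← Algebra.smul_def, ContinuousMap.smul_apply, duh_apply, Complex.real_smul]
  push_cast
  rfl

/-- the free evolution of the data -/
noncomputable def freeEv (h : ℝ) : Ops ℂ (CT h) where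
  T n := {
    toFun := fun z => ⟨fun τ => (Real.exp (-(kn n ^ 4 * τ)) : ℂ) * z, by fun_prop⟩
    map_zero' := by ext τ; simp
    map_add' := fun x y => by ext τ; simp [mul_add] }
  M := 1
  M0 := zero_le_one
  hT n z := by
    rw [one_mul, ContinuousMap.norm_le _ (norm_nonneg _)]
    intro τ
    show ‖(Real.exp (-(kn n ^ 4 * τ)) : ℂ) * z‖ ≤ ‖z‖
    rw [norm_mul, Complex.norm_real, Real.norm_of_nonneg (Real.exp_pos _).le]
    have h1 : Real.exp (-(kn n ^ 4 * τ)) ≤ 1 := by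
      rw [Real.exp_le_one_iff]
      have h2 : 0 ≤ kn n ^ 4 := by positivity
      have := mul_nonneg h2 τ.2.1
      linarith
    nlinarith [norm_nonneg z]

theorem freeEv_apply (f : L1 ℂ) (n : ℤ) (τ : Icc (0 : ℝ) h) :
    diag (freeEv h) f n τ = (Real.exp (-(kn n ^ 4 * τ)) : ℂ) * f n := rfl

end

end Pool.Agent.helper69.EM
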