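import Pool.Agent.helper69.EM.Prim

/-!
# EM (MP_278900_an): the flow of a smooth periodic time-dependent vector field on the line

`exists_flow`: `w` smooth on `ℝ × [0, T)`, 1-periodic, `S < T`; then there is a smooth
`ψ : ℝ × [0, S) → ℝ` with `ψ(u, 0) = u`, `ψ_t = w(ψ, t)`, `ψ(u + 1, t) = ψ(u, t) + 1`, `ψ_u > 0`.
-/

set_option autoImplicit false

open scoped Real ContDiff Topology NNReal
open MeasureTheory intervalIntegral Set Filter

namespace Pool.Agent.helper69.EM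

open Pool.Agent.helper19.EL (Sm)

theorem Sm.gu {T : ℝ} {w : ℝ → ℝ → ℝ} (hw : Sm T w) : Sm T (gu T w) := by
  have h1 : ContDiffOn ℝ ∞ (fderivWithin ℝ (fun q : ℝ × ℝ => w q.1 q.2) (D T)) (D T) :=
    ContDiffOn.fderivWithin hw (uD T) (by simp)
  exact h1.clm_apply contDiffOn_const

theorem Sm.nat {T : ℝ} {w : ℝ → ℝ → ℝ} (hw : Sm T w) (n : ℕ) :
    ContDiffOn ℝ n (fun q : ℝ × ℝ => w q.1 q.2) (D T) :=
  (contDiffOn_infty.1 hw) n

theorem Sm.gu_hasDerivAt {T : ℝ} {w : ℝ → ℝ → ℝ} (hw : Sm T w) {t : ℝ} (ht : t ∈ Ico 0 T) (u : ℝ) :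
    HasDerivAt (fun x => w x t) (EM.gu T w u t) u :=
  EM.gu_hasDerivAt (n := 0) (Sm.nat hw _) ht u

/-- a 1-periodic continuous function on the slab is bounded on `[0, S]`, `S < T` -/
theorem exists_bound {S T : ℝ} (hST : S < T) {h : ℝ → ℝ → ℝ}
    (hc : ContinuousOn (fun q : ℝ × ℝ => h q.1 q.2) (D T))
    (hp : ∀ t ∈ Ico 0 T, ∀ u, h (u + 1) t = h u t) :
    ∃ C : ℝ, 0 < C ∧ ∀ t ∈ Icc 0 S, ∀ u, |h u t| ≤ C := by
  have hK : IsCompact (Icc (0 : ℝ) 1 ×ˢ Icc (0 : ℝ) S) := isCompact_Icc.prod isCompact_Icc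
  have hKD : Icc (0 : ℝ) 1 ×ˢ Icc (0 : ℝ) S ⊆ D T := fun q hq =>
    ⟨mem_univ _, hq.2.1, lt_of_le_of_lt hq.2.2 hST⟩
  obtain ⟨C, hC⟩ := hK.exists_bound_of_continuousOn (hc.mono hKD)
  refine ⟨max C 1, lt_max_of_lt_right one_pos, fun t ht u => ?_⟩
  have hper : Function.Periodic (fun x => h x t) 1 := fun x =>
    hp t ⟨ht.1, lt_of_le_of_lt ht.2 hST⟩ x
  obtain ⟨y, hy, hy'⟩ := hper.exists_mem_Ico₀ one_pos u
  have h1 := hC (y, t) ⟨⟨hy.1, hy.2.le⟩, ht⟩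
  rw [hy']
  exact (Real.norm_eq_abs _ ▸ h1).trans (le_max_left _ _)

theorem gu_periodic {T : ℝ} {w : ℝ → ℝ → ℝ} (hw : Sm T w)
    (hp : ∀ t ∈ Ico 0 T, ∀ u, w (u + 1) t = w u t) :
    ∀ t ∈ Ico 0 T, ∀ u, EM.gu T w (u + 1) t = EM.gu T w u t := by
  intro t ht u
  have h1 := (Sm.gu_hasDerivAt hw ht (u + 1)).comp_add_const u 1
  have h2 : (fun x => w (x + 1) t) = fun x => w x t := funext fun x => hp t ht x
  rw [h2] at h1
  exact h1.unique (Sm.gu_hasDerivAt hw ht u)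

section ode

variable {T S : ℝ} {w : ℝ → ℝ → ℝ}

/-- the constants -/
structure Bd (S : ℝ) (w w1 : ℝ → ℝ → ℝ) (C K B : ℝ) : Prop where
  C0 : 0 < C
  K0 : 0 < K
  B0 : 0 < B
  w_le : ∀ t ∈ Icc 0 S, ∀ u, |w u t| ≤ C
  w1_le : ∀ t ∈ Icc 0 S, ∀ u, |w1 u t| ≤ K
  lip : ∀ t ∈ Icc 0 S, ∀ x y, |w x t - w y t| ≤ K * |x - y|
  tay : ∀ t ∈ Icc 0 S, ∀ x y, |w y t - w x t - w1 x t * (y - x)| ≤ B * |y - x| ^ 2

theorem exists_bd (hST : S < T) (hw : Sm T w)
    (hp : ∀ t ∈ Ico 0 T, ∀ u, w (u + 1) t = w u t) : ∃ C K B, Bd S w (EM.gu T w) C K B := by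
  obtain ⟨C, C0, hC⟩ := exists_bound hST (Sm.nat hw 0).continuousOn hp
  obtain ⟨K, K0, hK⟩ := exists_bound hST (Sm.nat (Sm.gu hw) 0).continuousOn (gu_periodic hw hp)
  obtain ⟨B, B0, hB⟩ := exists_bound hST (Sm.nat (Sm.gu (Sm.gu hw)) 0).continuousOn
    (gu_periodic (Sm.gu hw) (gu_periodic hw hp))
  have hI : ∀ {t : ℝ}, t ∈ Icc 0 S → t ∈ Ico 0 T := fun h => ⟨h.1, lt_of_le_of_lt h.2 hST⟩
  have hl : ∀ t ∈ Icc 0 S, ∀ x y, |EM.gu T w x t - EM.gu T w y t| ≤ B * |x - y| := by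
    intro t ht x y
    have := convex_univ.norm_image_sub_le_of_norm_hasDerivWithin_le
      (f := fun x => EM.gu T w x t) (f' := fun x => EM.gu T (EM.gu T w) x t) (C := B)
      (fun z _ => (Sm.gu_hasDerivAt (Sm.gu hw) (hI ht) z).hasDerivWithinAt)
      (fun z _ => by rw [Real.norm_eq_abs]; exact hB t ht z) (mem_univ y) (mem_univ x)
    simpa [Real.norm_eq_abs] using this
  refine ⟨C, K, B, C0, K0, B0, hC, hK, fun t ht x y => ?_, fun t ht x y => ?_⟩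
  · have := convex_univ.norm_image_sub_le_of_norm_hasDerivWithin_le
      (f := fun x => w x t) (f' := fun x => EM.gu T w x t) (C := K)
      (fun z _ => (Sm.gu_hasDerivAt hw (hI ht) z).hasDerivWithinAt)
      (fun z _ => by rw [Real.norm_eq_abs]; exact hK t ht z) (mem_univ y) (mem_univ x)
    simpa [Real.norm_eq_abs] using this
  · have hmv := (convex_uIcc x y).norm_image_sub_le_of_norm_hasDerivWithin_le
      (f := fun z => w z t - EM.gu T w x t * z) (f' := fun z => EM.gu T w z t - EM.gu T w x t)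
      (C := B * |y - x|)
      (fun z _ => by
        have h1 := (Sm.gu_hasDerivAt hw (hI ht) z).sub
          ((hasDerivAt_id z).const_mul (EM.gu T w x t))
        simp only [mul_one] at h1
        exact h1.hasDerivWithinAt)
      (fun z hz => by
        rw [Real.norm_eq_abs]
        refine (hl t ht z x).trans (mul_le_mul_of_nonneg_left ?_ B0.le)
        exact Set.abs_sub_left_of_mem_uIcc hz) left_mem_uIcc right_mem_uIcc
    rw [Real.norm_eq_abs, Real.norm_eq_abs] at hmv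
    have he : w y t - w x t - EM.gu T w x t * (y - x) =
        (w y t - EM.gu T w x t * y) - (w x t - EM.gu T w x t * x) := by ring
    rw [he]
    refine hmv.trans (le_of_eq ?_)
    ring

/-- a trajectory on `[0, S]` -/
def Traj (S : ℝ) (w : ℝ → ℝ → ℝ) (u : ℝ) (α : ℝ → ℝ) : Prop :=
  α 0 = u ∧ ∀ t ∈ Icc 0 S, HasDerivWithinAt α (w (α t) t) (Icc 0 S) t

theorem exists_traj (hS : 0 < S) {w1 : ℝ → ℝ → ℝ} {C K B : ℝ} (hb : Bd S w w1 C K B)
    (hc : ∀ x, ContinuousOn (w x) (Icc 0 S)) (u : ℝ) : ∃ α, Traj S w u α := by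
  have hP : IsPicardLindelof (fun t x => w x t) (⟨0, left_mem_Icc.2 hS.le⟩ : Icc (0 : ℝ) S) u
      (⟨C * S, by have := hb.C0; positivity⟩ : ℝ≥0) 0 ⟨C, hb.C0.le⟩ ⟨K, hb.K0.le⟩ := by
    refine ⟨fun t ht => ?_, fun x _ => hc x, fun t ht x _ => ?_, ?_⟩
    · refine LipschitzOnWith.of_dist_le_mul fun x _ y _ => ?_
      rw [Real.dist_eq, Real.dist_eq]
      exact hb.lip t ht x y
    · rw [Real.norm_eq_abs]
      exact hb.w_le t ht x
    · simp only [NNReal.coe_zero, sub_zero, sub_self]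
      rw [max_eq_left hS.le]
      exact le_refl _
  obtain ⟨α, h0, h1⟩ := hP.exists_eq_forall_mem_Icc_hasDerivWithinAt₀
  exact ⟨α, h0, h1⟩

theorem traj_right {u : ℝ} {α : ℝ → ℝ} (h : Traj S w u α) {t : ℝ} (ht : t ∈ Ico 0 S) :
    HasDerivWithinAt α (w (α t) t) (Ici t) t :=
  (h.2 t ⟨ht.1, ht.2.le⟩).mono_of_mem_nhdsWithin (Icc_mem_nhdsGE_of_mem ht)

theorem traj_cont {u : ℝ} {α : ℝ → ℝ} (h : Traj S w u α) : ContinuousOn α (Icc 0 S) :=
  fun t ht => (h.2 t ht).continuousWithinAt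

theorem traj_dist {w1 : ℝ → ℝ → ℝ} {C K B : ℝ} (hb : Bd S w w1 C K B)
    {u v : ℝ} {α β : ℝ → ℝ} (hα : Traj S w u α) (hβ : Traj S w v β) {t : ℝ} (ht : t ∈ Icc 0 S) :
    |α t - β t| ≤ Real.exp (K * S) * |u - v| := by
  have h1 := dist_le_of_trajectories_ODE_of_mem (v := fun t x => w x t) (s := fun _ => univ)
    (K := ⟨K, hb.K0.le⟩) (f := α) (g := β) (a := 0) (b := S) (δ := |u - v|)
    (fun t ht => LipschitzOnWith.of_dist_le_mul fun x _ y _ => by
      rw [Real.dist_eq, Real.dist_eq]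
      exact hb.lip t ⟨ht.1, ht.2.le⟩ x y)
    (traj_cont hα) (fun t ht => traj_right hα ht) (fun _ _ => mem_univ _)
    (traj_cont hβ) (fun t ht => traj_right hβ ht) (fun _ _ => mem_univ _)
    (by rw [hα.1, hβ.1, Real.dist_eq]) t ht
  rw [Real.dist_eq] at h1
  refine h1.trans ?_
  rw [mul_comm]
  refine mul_le_mul_of_nonneg_right (Real.exp_le_exp.2 ?_) (abs_nonneg _)
  simp only [sub_zero]
  exact mul_le_mul_of_nonneg_left ht.2 hb.K0.le

/-- the derivative of the flow in the initial point -/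
theorem traj_deriv (hS : 0 < S) {w1 : ℝ → ℝ → ℝ} {C K B : ℝ} (hb : Bd S w w1 C K B)
    (hc1 : ContinuousOn (fun q : ℝ × ℝ => w1 q.1 q.2) (univ ×ˢ Icc 0 S))
    {ψ : ℝ → ℝ → ℝ} (hψ : ∀ u, Traj S w u (ψ u)) (u : ℝ) {t : ℝ} (ht : t ∈ Icc 0 S) :
    HasDerivAt (fun x => ψ x t) (Real.exp (∫ τ in (0 : ℝ)..t, w1 (ψ u τ) τ)) u := by
  -- the clamped coefficient
  set c : ℝ → ℝ := fun τ => w1 (ψ u (max 0 (min τ S))) (max 0 (min τ S)) with hcdef
  have hmem : ∀ τ : ℝ, max 0 (min τ S) ∈ Icc 0 S := fun τ =>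
    ⟨le_max_left _ _, max_le hS.le (min_le_right _ _)⟩
  have hcc : Continuous c := by
    have h1 : Continuous fun τ : ℝ => ψ u (max 0 (min τ S)) :=
      (traj_cont (hψ u)).comp_continuous (by fun_prop) hmem
    have h2 : Continuous fun τ : ℝ => ((ψ u (max 0 (min τ S)), max 0 (min τ S)) : ℝ × ℝ) :=
      h1.prodMk (by fun_prop)
    exact hc1.comp_continuous h2 fun τ => ⟨mem_univ _, hmem τ⟩
  set P : ℝ → ℝ := fun s => Real.exp (∫ τ in (0 : ℝ)..s, c τ) with hPdef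
  have hP : ∀ s, HasDerivAt P (P s * c s) s := fun s =>
    ((hcc.integral_hasStrictDerivAt 0 s).hasDerivAt).exp
  have hPt : Real.exp (∫ τ in (0 : ℝ)..t, w1 (ψ u τ) τ) = P t := by
    rw [hPdef]
    congr 1
    refine intervalIntegral.integral_congr fun τ hτ => ?_
    rw [uIcc_of_le ht.1] at hτ
    simp only [hcdef]
    rw [clamp_eq ⟨hτ.1, hτ.2.trans ht.2⟩]
  rw [hPt]
  set L : ℝ := Real.exp (K * S) with hL
  set G : ℝ := B * L ^ 2 / K * (Real.exp (K * S) - 1) with hG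
  have hest : ∀ h : ℝ, |ψ (u + h) t - ψ u t - h * P t| ≤ G * h ^ 2 := by
    intro h
    have hcont : ContinuousOn (fun s => ψ (u + h) s - ψ u s - h * P s) (Icc 0 S) := by
      refine ((traj_cont (hψ (u + h))).sub (traj_cont (hψ u))).sub ?_
      exact (continuous_const.mul (continuous_iff_continuousAt.2
        fun s => (hP s).continuousAt)).continuousOn
    have hder : ∀ s ∈ Ico 0 S, HasDerivWithinAt (fun s => ψ (u + h) s - ψ u s - h * P s)
        (w (ψ (u + h) s) s - w (ψ u s) s - h * (P s * c s)) (Ici s) s := by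
      intro s hs
      exact ((traj_right (hψ (u + h)) hs).sub (traj_right (hψ u) hs)).sub
        (((hP s).hasDerivWithinAt).const_mul h)
    have hbound : ∀ s ∈ Ico 0 S, ‖w (ψ (u + h) s) s - w (ψ u s) s - h * (P s * c s)‖ ≤
        K * ‖ψ (u + h) s - ψ u s - h * P s‖ + B * L ^ 2 * h ^ 2 := by
      intro s hs
      have hs' : s ∈ Icc 0 S := ⟨hs.1, hs.2.le⟩
      have hcs : c s = w1 (ψ u s) s := by
        simp only [hcdef]; rw [clamp_eq hs']
      have h1 : w (ψ (u + h) s) s - w (ψ u s) s - h * (P s * c s) =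
          (w (ψ (u + h) s) s - w (ψ u s) s - w1 (ψ u s) s * (ψ (u + h) s - ψ u s)) +
          w1 (ψ u s) s * (ψ (u + h) s - ψ u s - h * P s) := by
        rw [hcs]; ring
      rw [h1, Real.norm_eq_abs, Real.norm_eq_abs]
      refine (abs_add_le _ _).trans ?_
      rw [add_comm]
      refine add_le_add ?_ ?_
      · rw [abs_mul]
        exact mul_le_mul_of_nonneg_right (hb.w1_le s hs' _) (abs_nonneg _)
      · refine (hb.tay s hs' _ _).trans ?_
        have h2 : |ψ (u + h) s - ψ u s| ≤ L * |h| := by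
          have := traj_dist hb (hψ (u + h)) (hψ u) hs'
          simpa using this
        have h3 : |ψ (u + h) s - ψ u s| ^ 2 ≤ (L * |h|) ^ 2 :=
          pow_le_pow_left₀ (abs_nonneg _) h2 2
        rw [mul_pow, sq_abs h] at h3
        calc B * |ψ (u + h) s - ψ u s| ^ 2 ≤ B * (L ^ 2 * h ^ 2) :=
              mul_le_mul_of_nonneg_left h3 hb.B0.le
          _ = B * L ^ 2 * h ^ 2 := by ring
    have h0 : ‖ψ (u + h) 0 - ψ u 0 - h * P 0‖ ≤ 0 := by
      rw [(hψ (u + h)).1, (hψ u).1]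
      simp [hPdef]
    have := norm_le_gronwallBound_of_norm_deriv_right_le hcont hder h0 hbound t ht
    rw [Real.norm_eq_abs, gronwallBound_of_K_ne_0 hb.K0.ne'] at this
    refine this.trans ?_
    simp only [zero_mul, zero_add, sub_zero]
    have h4 : Real.exp (K * t) ≤ Real.exp (K * S) :=
      Real.exp_le_exp.2 (mul_le_mul_of_nonneg_left ht.2 hb.K0.le)
    have h5 : 0 ≤ B * L ^ 2 * h ^ 2 / K := by
      have := hb.B0; have := hb.K0; positivity
    calc B * L ^ 2 * h ^ 2 / K * (Real.exp (K * t) - 1)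
        ≤ B * L ^ 2 * h ^ 2 / K * (Real.exp (K * S) - 1) :=
          mul_le_mul_of_nonneg_left (by linarith) h5
      _ = G * h ^ 2 := by rw [hG]; ring
  rw [hasDerivAt_iff_isLittleO_nhds_zero]
  have h6 : (fun h => ψ (u + h) t - ψ u t - h • P t) =O[𝓝 0] fun h : ℝ => h ^ 2 := by
    refine Asymptotics.IsBigO.of_bound G (Eventually.of_forall fun h => ?_)
    rw [smul_eq_mul, Real.norm_eq_abs, Real.norm_eq_abs, abs_of_nonneg (sq_nonneg h)]
    exact hest h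
  refine h6.trans_isLittleO ?_
  exact Asymptotics.isLittleO_pow_id (by norm_num)

/-- the flow of a smooth periodic vector field -/
theorem exists_flow (hS : 0 < S) (hST : S < T) (hw : Sm T w)
    (hp : ∀ t ∈ Ico 0 T, ∀ u, w (u + 1) t = w u t) :
    ∃ ψ : ℝ → ℝ → ℝ, Sm S ψ ∧ (∀ u, ψ u 0 = u) ∧
      (∀ t ∈ Ico 0 S, ∀ u, ψ (u + 1) t = ψ u t + 1) ∧
      (∀ t ∈ Ioo 0 S, ∀ u, HasDerivAt (ψ u) (w (ψ u t) t) t) ∧
      (∀ t ∈ Ico 0 S, ∀ u, ∃ d : ℝ, 0 < d ∧ HasDerivAt (fun x => ψ x t) d u) := by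
  obtain ⟨C, K, B, hb⟩ := exists_bd hST hw hp
  have hsub : (univ : Set ℝ) ×ˢ Icc 0 S ⊆ D T := fun q hq =>
    ⟨mem_univ _, hq.2.1, lt_of_le_of_lt hq.2.2 hST⟩
  have hcx : ∀ x, ContinuousOn (w x) (Icc 0 S) := by
    intro x
    have h1 : ContinuousOn (fun τ : ℝ => ((x, τ) : ℝ × ℝ)) (Icc 0 S) := by fun_prop
    exact (Sm.nat hw 0).continuousOn.comp h1 fun τ hτ => hsub ⟨mem_univ _, hτ⟩
  choose ψ hψ using exists_traj hS hb hcx
  have hc1 : ContinuousOn (fun q : ℝ × ℝ => EM.gu T w q.1 q.2) (univ ×ˢ Icc 0 S) :=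
    (Sm.nat (Sm.gu hw) 0).continuousOn.mono hsub
  have hder := fun (u : ℝ) {t : ℝ} (ht : t ∈ Icc 0 S) => traj_deriv hS hb hc1 hψ u ht
  have hcontI : ContinuousOn (fun q : ℝ × ℝ => ψ q.1 q.2) (univ ×ˢ Icc 0 S) := by
    refine continuousOn_prod_of_continuousOn_lipschitzOnWith (fun q : ℝ × ℝ => ψ q.1 q.2)
      ⟨Real.exp (K * S), (Real.exp_pos _).le⟩ (fun u _ => traj_cont (hψ u)) fun t ht => ?_
    refine LipschitzOnWith.of_dist_le_mul fun x _ y _ => ?_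
    rw [Real.dist_eq, Real.dist_eq]
    exact traj_dist hb (hψ x) (hψ y) ht
  have hmaps : MapsTo (fun q : ℝ × ℝ => ((ψ q.1 q.2, q.2) : ℝ × ℝ)) (D S) (D T) := fun q hq =>
    ⟨mem_univ _, hq.2.1, hq.2.2.trans hST⟩
  have hn : ∀ n : ℕ, ContDiffOn ℝ n (fun q : ℝ × ℝ => ψ q.1 q.2) (D S) := by
    intro n
    induction n with
    | zero =>
      rw [Nat.cast_zero, contDiffOn_zero]
      exact hcontI.mono fun q hq => ⟨mem_univ _, hq.2.1, hq.2.2.le⟩
    | succ n ih =>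
      have hpair : ContDiffOn ℝ n (fun q : ℝ × ℝ => ((ψ q.1 q.2, q.2) : ℝ × ℝ)) (D S) :=
        ih.prodMk contDiff_snd.contDiffOn
      refine contDiffOn_succ_of_partial
        (A := fun u t => Real.exp (∫ τ in (0 : ℝ)..t, EM.gu T w (ψ u τ) τ))
        (B := fun u t => w (ψ u t) t) ?_ ?_ ?_ ?_
      · intro t ht u
        exact hder u ⟨ht.1, ht.2.le⟩
      · intro t ht u
        exact ((hψ u).2 t ⟨ht.1, ht.2.le⟩).mono Ico_subset_Icc_self
      · refine ContDiffOn.exp ?_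
        refine contDiffOn_prim n (fun u τ => EM.gu T w (ψ u τ) τ) ?_
        exact (Sm.nat (Sm.gu hw) n).comp hpair hmaps
      · exact (Sm.nat hw n).comp hpair hmaps
  refine ⟨ψ, contDiffOn_infty.2 hn, fun u => (hψ u).1, fun t ht u => ?_, fun t ht u => ?_,
    fun t ht u => ⟨_, Real.exp_pos _, hder u ⟨ht.1, ht.2.le⟩⟩⟩
  · have h1 : Traj S w (u + 1) (fun t => ψ u t + 1) := by
      refine ⟨by simp [(hψ u).1], fun s hs => ?_⟩
      have h2 := ((hψ u).2 s hs).add_const 1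
      have h3 : w (ψ u s + 1) s = w (ψ u s) s := hp s ⟨hs.1, lt_of_le_of_lt hs.2 hST⟩ _
      rw [h3]
      exact h2
    have h4 := traj_dist hb (hψ (u + 1)) h1 (t := t) ⟨ht.1, ht.2.le⟩
    rw [sub_self, abs_zero, mul_zero] at h4
    have h5 := abs_nonpos_iff.1 h4
    linarith
  · exact ((hψ u).2 t ⟨ht.1.le, ht.2.le⟩).hasDerivAt (Icc_mem_nhds ht.1 ht.2)

end ode

end Pool.Agent.helper69.EM
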