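import Pool.Agent.helper69.EM.Duh

/-!
# EM (MP_278900_an): the fixed point

The unknown is `f n = (1 + |n|) a n`, `a n ∈ C([0,h], ℂ)` the Fourier coefficients of
`u = θ_α`, which solves `u_τ = -u'''' - (5/6)(u³)'' + (u P(u'² - u⁴/2))'`.
-/

set_option autoImplicit false
set_option linter.unusedSectionVars false

open scoped Real ENNReal ComplexConjugate
open Filter Set MeasureTheory

namespace Pool.Agent.helper69.EM

/-- the weight -/
noncomputable def wt (n : ℤ) : ℝ := 1 + |(n : ℝ)|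

theorem wt_pos (n : ℤ) : 0 < wt n := by unfold wt; positivity

theorem one_le_wt (n : ℤ) : 1 ≤ wt n := by
  unfold wt
  have := abs_nonneg (n : ℝ)
  linarith

theorem wt_neg (n : ℤ) : wt (-n) = wt n := by simp [wt]

theorem wt_le_mul (n m : ℤ) : wt n ≤ wt m * wt (n - m) := by
  unfold wt
  have h1 : |(n : ℝ)| ≤ |(m : ℝ)| + |((n - m : ℤ) : ℝ)| := by
    have := abs_add_le (m : ℝ) ((n - m : ℤ) : ℝ)
    push_cast at this ⊢
    simpa using this
  have h2 := abs_nonneg (m : ℝ)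
  have h3 := abs_nonneg ((n - m : ℤ) : ℝ)
  nlinarith

theorem abs_kn_le (n : ℤ) : |kn n| ≤ 2 * π * wt n := by
  unfold kn wt
  rw [abs_mul, abs_of_pos Real.two_pi_pos]
  have := Real.pi_pos
  nlinarith [abs_nonneg (n : ℝ)]

theorem wt_le_kn {n : ℤ} (hn : n ≠ 0) : 2 * π * wt n ≤ 2 * |kn n| := by
  unfold kn wt
  rw [abs_mul, abs_of_pos Real.two_pi_pos]
  have h1 : (1 : ℝ) ≤ |(n : ℝ)| := by
    have := Int.one_le_abs hn
    exact_mod_cast this
  have := Real.pi_pos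
  nlinarith

/-- the kernel of the product -/
noncomputable def k0 : Ker where
  c n m := wt n / (wt m * wt (n - m))
  M := 1
  M0 := zero_le_one
  hc n m := by
    have h1 := wt_pos n
    have h2 := wt_pos m
    have h3 := wt_pos (n - m)
    rw [abs_of_pos (by positivity), div_le_one (by positivity)]
    exact wt_le_mul n m

/-- the kernel of `P(u'²)` (up to sign) -/
noncomputable def k1 : Ker where
  c n m := if n = 0 then 0 else wt n / kn n * (kn m / wt m * (kn (n - m) / wt (n - m)))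
  M := 16
  M0 := by norm_num
  hc n m := by
    by_cases hn : n = 0
    · rw [if_pos hn, abs_zero]; norm_num
    · rw [if_neg hn, abs_mul, abs_mul]
      have hk : ∀ m : ℤ, |kn m / wt m| ≤ 2 * π := by
        intro m
        rw [abs_div, abs_of_pos (wt_pos m), div_le_iff₀ (wt_pos m)]
        exact abs_kn_le m
      have hw : |wt n / kn n| ≤ 1 / π := by
        have h1 := one_le_abs_kn hn
        rw [abs_div, abs_of_pos (wt_pos n), div_le_div_iff₀ (by linarith) Real.pi_pos]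
        have := wt_le_kn hn
        linarith
      have hπ := Real.pi_pos
      calc |wt n / kn n| * (|kn m / wt m| * |kn (n - m) / wt (n - m)|)
          ≤ 1 / π * (2 * π * (2 * π)) :=
            mul_le_mul hw (mul_le_mul (hk m) (hk _) (abs_nonneg _) (by positivity))
              (by positivity) (by positivity)
        _ = 4 * π := by field_simp; ring
        _ ≤ 16 := by have := Real.pi_le_four; linarith

section

variable {h : ℝ}

/-- the multiplier `1/(2πn)` -/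
noncomputable def dd (h : ℝ) : Ops (CT h) (CT h) where
  T n := AddMonoidHom.mulLeft (algebraMap ℝ (CT h) (if n = 0 then 0 else 1 / kn n))
  M := 1
  M0 := zero_le_one
  hT n x := by
    rw [AddMonoidHom.coe_mulLeft, ← Algebra.smul_def, norm_smul, Real.norm_eq_abs]
    refine mul_le_mul_of_nonneg_right ?_ (norm_nonneg _)
    by_cases hn : n = 0
    · rw [if_pos hn, abs_zero]; norm_num
    · rw [if_neg hn, abs_div, abs_one]
      have h1 := one_le_abs_kn hn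
      rw [div_le_one (by linarith)]
      exact h1

/-- the product -/
noncomputable def pr (f g : L1 (CT h)) : L1 (CT h) := B k0 f g

theorem norm_pr_le (f g : L1 (CT h)) : ‖pr f g‖ ≤ ‖f‖ * ‖g‖ := by
  have := norm_B_le k0 f g
  rwa [show k0.M = 1 from rfl, one_mul] at this

theorem norm_pr_sub_le (f f' g g' : L1 (CT h)) :
    ‖pr f g - pr f' g'‖ ≤ ‖f - f'‖ * ‖g‖ + ‖f'‖ * ‖g - g'‖ := by
  have := norm_B_sub_le k0 f f' g g'
  rwa [show k0.M = 1 from rfl, one_mul] at this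

/-- `P(u'² - u⁴/2)` -/
noncomputable def pp (f : L1 (CT h)) : L1 (CT h) :=
  -B k1 f f - (1 / 2 : ℝ) • diag (dd h) (pr (pr f f) (pr f f))

noncomputable def N1 (f : L1 (CT h)) : L1 (CT h) := pr f (pp f)

noncomputable def N2 (f : L1 (CT h)) : L1 (CT h) := (5 / 6 : ℝ) • pr f (pr f f)

variable {ρ : ℝ} {f g : L1 (CT h)}

theorem sq_le (hf : ‖f‖ ≤ ρ) : ‖pr f f‖ ≤ ρ ^ 2 := by
  refine (norm_pr_le f f).trans ?_
  rw [sq]
  exact mul_le_mul hf hf (norm_nonneg _) ((norm_nonneg _).trans hf)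

theorem sq_sub (hf : ‖f‖ ≤ ρ) (hg : ‖g‖ ≤ ρ) : ‖pr f f - pr g g‖ ≤ 2 * ρ * ‖f - g‖ := by
  refine (norm_pr_sub_le f g f g).trans ?_
  have := norm_nonneg (f - g)
  nlinarith

theorem qd_le (hf : ‖f‖ ≤ ρ) : ‖pr (pr f f) (pr f f)‖ ≤ ρ ^ 4 := by
  refine (norm_pr_le _ _).trans ?_
  have h1 := sq_le hf
  rw [show ρ ^ 4 = ρ ^ 2 * ρ ^ 2 by ring]
  exact mul_le_mul h1 h1 (norm_nonneg _) (by positivity)

theorem qd_sub (hf : ‖f‖ ≤ ρ) (hg : ‖g‖ ≤ ρ) :
    ‖pr (pr f f) (pr f f) - pr (pr g g) (pr g g)‖ ≤ 4 * ρ ^ 3 * ‖f - g‖ := by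
  refine (norm_pr_sub_le _ _ _ _).trans ?_
  have h1 := sq_le hf
  have h2 := sq_le hg
  have h3 := sq_sub hf hg
  have h4 := norm_nonneg (pr f f - pr g g)
  have hρ : 0 ≤ ρ := (norm_nonneg _).trans hf
  calc ‖pr f f - pr g g‖ * ‖pr f f‖ + ‖pr g g‖ * ‖pr f f - pr g g‖
      ≤ (2 * ρ * ‖f - g‖) * ρ ^ 2 + ρ ^ 2 * (2 * ρ * ‖f - g‖) := by gcongr
    _ = 4 * ρ ^ 3 * ‖f - g‖ := by ring

theorem k1_le (hf : ‖f‖ ≤ ρ) : ‖B k1 f f‖ ≤ 16 * ρ ^ 2 := by
  refine (norm_B_le k1 f f).trans ?_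
  rw [show k1.M = 16 from rfl, sq]
  have := mul_le_mul hf hf (norm_nonneg _) ((norm_nonneg _).trans hf)
  linarith

theorem k1_sub (hf : ‖f‖ ≤ ρ) (hg : ‖g‖ ≤ ρ) : ‖B k1 f f - B k1 g g‖ ≤ 32 * ρ * ‖f - g‖ := by
  refine (norm_B_sub_le k1 f g f g).trans ?_
  rw [show k1.M = 16 from rfl]
  have := norm_nonneg (f - g)
  nlinarith

theorem dd_le (f : L1 (CT h)) : ‖diag (dd h) f‖ ≤ ‖f‖ := by
  have := norm_diag_le (dd h) f
  rwa [show (dd h).M = 1 from rfl, one_mul] at this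

theorem pp_le (hρ : 1 ≤ ρ) (hf : ‖f‖ ≤ ρ) : ‖pp f‖ ≤ 17 * ρ ^ 4 := by
  unfold pp
  refine (norm_sub_le _ _).trans ?_
  rw [norm_neg, norm_smul, Real.norm_of_nonneg (by norm_num)]
  have h1 := k1_le hf
  have h2 := (dd_le (pr (pr f f) (pr f f))).trans (qd_le hf)
  have h3 : ρ ^ 2 ≤ ρ ^ 4 := pow_le_pow_right₀ hρ (by norm_num)
  have h4 : 0 ≤ ρ ^ 4 := by positivity
  linarith

theorem pp_sub (hρ : 1 ≤ ρ) (hf : ‖f‖ ≤ ρ) (hg : ‖g‖ ≤ ρ) :
    ‖pp f - pp g‖ ≤ 34 * ρ ^ 3 * ‖f - g‖ := by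
  have h0 : pp f - pp g = -(B k1 f f - B k1 g g) - (1 / 2 : ℝ) •
      diag (dd h) (pr (pr f f) (pr f f) - pr (pr g g) (pr g g)) := by
    unfold pp
    rw [diag_sub, smul_sub]
    abel
  rw [h0]
  refine (norm_sub_le _ _).trans ?_
  rw [norm_neg, norm_smul, Real.norm_of_nonneg (by norm_num)]
  have h1 := k1_sub hf hg
  have h2 := (dd_le (pr (pr f f) (pr f f) - pr (pr g g) (pr g g))).trans (qd_sub hf hg)
  have h3 : ρ ≤ ρ ^ 3 := by
    calc ρ = ρ ^ 1 := (pow_one _).symm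
      _ ≤ ρ ^ 3 := pow_le_pow_right₀ hρ (by norm_num)
  have h4 := norm_nonneg (f - g)
  have h5 := mul_le_mul_of_nonneg_right h3 h4
  nlinarith

theorem N1_le (hρ : 1 ≤ ρ) (hf : ‖f‖ ≤ ρ) : ‖N1 f‖ ≤ 17 * ρ ^ 5 := by
  unfold N1
  refine (norm_pr_le _ _).trans ?_
  have h1 := pp_le hρ hf
  calc ‖f‖ * ‖pp f‖ ≤ ρ * (17 * ρ ^ 4) :=
        mul_le_mul hf h1 (norm_nonneg _) (by linarith)
    _ = 17 * ρ ^ 5 := by ring

theorem N1_sub (hρ : 1 ≤ ρ) (hf : ‖f‖ ≤ ρ) (hg : ‖g‖ ≤ ρ) :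
    ‖N1 f - N1 g‖ ≤ 51 * ρ ^ 4 * ‖f - g‖ := by
  unfold N1
  refine (norm_pr_sub_le _ _ _ _).trans ?_
  have h1 := pp_le hρ hf
  have h2 := pp_sub hρ hf hg
  have h4 := norm_nonneg (f - g)
  calc ‖f - g‖ * ‖pp f‖ + ‖g‖ * ‖pp f - pp g‖
      ≤ ‖f - g‖ * (17 * ρ ^ 4) + ρ * (34 * ρ ^ 3 * ‖f - g‖) := by gcongr
    _ = 51 * ρ ^ 4 * ‖f - g‖ := by ring

theorem N2_le (hρ : 1 ≤ ρ) (hf : ‖f‖ ≤ ρ) : ‖N2 f‖ ≤ ρ ^ 5 := by
  unfold N2
  rw [norm_smul, Real.norm_of_nonneg (by norm_num)]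
  have h1 := norm_pr_le f (pr f f)
  have h2 := sq_le hf
  have h3 : ‖f‖ * ‖pr f f‖ ≤ ρ * ρ ^ 2 := mul_le_mul hf h2 (norm_nonneg _) (by linarith)
  have h4 : ρ * ρ ^ 2 ≤ ρ ^ 5 := by
    rw [show ρ * ρ ^ 2 = ρ ^ 3 by ring]
    exact pow_le_pow_right₀ hρ (by norm_num)
  have h5 := norm_nonneg (pr f (pr f f))
  linarith

theorem N2_sub (hρ : 1 ≤ ρ) (hf : ‖f‖ ≤ ρ) (hg : ‖g‖ ≤ ρ) :
    ‖N2 f - N2 g‖ ≤ 3 * ρ ^ 4 * ‖f - g‖ := by
  unfold N2
  rw [← smul_sub, norm_smul, Real.norm_of_nonneg (by norm_num)]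
  have h1 := norm_pr_sub_le f g (pr f f) (pr g g)
  have h2 := sq_le hf
  have h3 := sq_sub hf hg
  have h4 := norm_nonneg (f - g)
  have h5 : ‖f - g‖ * ‖pr f f‖ + ‖g‖ * ‖pr f f - pr g g‖ ≤
      ‖f - g‖ * ρ ^ 2 + ρ * (2 * ρ * ‖f - g‖) := by gcongr
  have h6 : ‖f - g‖ * ρ ^ 2 + ρ * (2 * ρ * ‖f - g‖) = 3 * ρ ^ 2 * ‖f - g‖ := by ring
  have h7 : ρ ^ 2 * ‖f - g‖ ≤ ρ ^ 4 * ‖f - g‖ :=
    mul_le_mul_of_nonneg_right (pow_le_pow_right₀ hρ (by norm_num)) h4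
  have h8 := norm_nonneg (pr f (pr f f) - pr g (pr g g))
  linarith

/-- the map whose fixed point is the solution -/
noncomputable def Phi (hh : 0 ≤ h) (f0 : L1 ℂ) (f : L1 (CT h)) : L1 (CT h) :=
  diag (freeEv h) f0 + diag (J hh 2 (Or.inr rfl)) (N2 f) + diag (J hh 1 (Or.inl rfl)) (N1 f)

theorem Phi_le (hh : 0 ≤ h) (hρ : 1 ≤ ρ) (f0 : L1 ℂ) (hf : ‖f‖ ≤ ρ) :
    ‖Phi hh f0 f‖ ≤ ‖f0‖ + √h * (18 * ρ ^ 5) := by
  unfold Phi
  have h1 := norm_diag_le (freeEv h) f0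
  rw [show (freeEv h).M = 1 from rfl, one_mul] at h1
  have h2 := norm_diag_le (J hh 2 (Or.inr rfl)) (N2 f)
  rw [show (J hh 2 (Or.inr rfl)).M = √h from rfl] at h2
  have h3 := norm_diag_le (J hh 1 (Or.inl rfl)) (N1 f)
  rw [show (J hh 1 (Or.inl rfl)).M = √h from rfl] at h3
  have h4 := mul_le_mul_of_nonneg_left (N2_le hρ hf) (Real.sqrt_nonneg h)
  have h5 := mul_le_mul_of_nonneg_left (N1_le hρ hf) (Real.sqrt_nonneg h)
  refine (norm_add_le _ _).trans ?_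
  have h6 := norm_add_le (diag (freeEv h) f0) (diag (J hh 2 (Or.inr rfl)) (N2 f))
  linarith

theorem Phi_sub (hh : 0 ≤ h) (hρ : 1 ≤ ρ) (f0 : L1 ℂ) (hf : ‖f‖ ≤ ρ) (hg : ‖g‖ ≤ ρ) :
    ‖Phi hh f0 f - Phi hh f0 g‖ ≤ √h * (54 * ρ ^ 4) * ‖f - g‖ := by
  have h0 : Phi hh f0 f - Phi hh f0 g = diag (J hh 2 (Or.inr rfl)) (N2 f - N2 g) +
      diag (J hh 1 (Or.inl rfl)) (N1 f - N1 g) := by
    unfold Phi
    rw [diag_sub, diag_sub]
    abel
  rw [h0]
  have h2 := norm_diag_le (J hh 2 (Or.inr rfl)) (N2 f - N2 g)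
  rw [show (J hh 2 (Or.inr rfl)).M = √h from rfl] at h2
  have h3 := norm_diag_le (J hh 1 (Or.inl rfl)) (N1 f - N1 g)
  rw [show (J hh 1 (Or.inl rfl)).M = √h from rfl] at h3
  have h4 := mul_le_mul_of_nonneg_left (N2_sub hρ hf hg) (Real.sqrt_nonneg h)
  have h5 := mul_le_mul_of_nonneg_left (N1_sub hρ hf hg) (Real.sqrt_nonneg h)
  refine (norm_add_le _ _).trans ?_
  linarith

end

/-! ## symmetry -/

section sym

variable {h : ℝ}

/-- `f (-n) = ε conj (f n)` -/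
def Sy (ε : ℝ) (f : ℤ → CT h) : Prop := ∀ n, f (-n) = ε • star (f n)

theorem term_neg {ε₁ ε₂ ε₃ : ℝ} (κ : Ker) (hκ : ∀ n m, κ.c (-n) (-m) = ε₃ * κ.c n m)
    {f g : ℤ → CT h} (hf : Sy ε₁ f) (hg : Sy ε₂ g) (n m : ℤ) :
    term κ f g (-n) (-m) = (ε₁ * ε₂ * ε₃) • star (term κ f g n m) := by
  unfold term
  have hs : ∀ r : ℝ, star r = r := fun r => star_trivial r
  rw [hκ, hf m, show -n - -m = -(n - m) by ring, hg (n - m), star_smul, star_mul', smul_mul_smul_comm,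
    smul_smul, smul_smul, hs]
  congr 1
  ring

theorem Sy.B {ε₁ ε₂ ε₃ : ℝ} (κ : Ker) (hκ : ∀ n m, κ.c (-n) (-m) = ε₃ * κ.c n m)
    {f g : L1 (CT h)} (hf : Sy ε₁ f) (hg : Sy ε₂ g) : Sy (ε₁ * ε₂ * ε₃) (B κ f g) := by
  intro n
  rw [B_apply, B_apply, tsum_star, ← (Equiv.neg ℤ).tsum_eq
    (fun m => term κ (f : ℤ → CT h) g (-n) m)]
  rw [← Summable.tsum_const_smul]
  · exact tsum_congr fun m => term_neg κ hκ hf hg n m
  · exact (summable_term κ (summ f) (summ g) n).star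

theorem Sy.sub {ε : ℝ} {f g : L1 (CT h)} (hf : Sy ε f) (hg : Sy ε g) : Sy ε (f - g : L1 (CT h)) := by
  intro n
  rw [lp.coeFn_sub, Pi.sub_apply, Pi.sub_apply, hf n, hg n, star_sub]
  exact (smul_sub ε (star ((f : ℤ → CT h) n)) (star ((g : ℤ → CT h) n))).symm

theorem Sy.add {ε : ℝ} {f g : L1 (CT h)} (hf : Sy ε f) (hg : Sy ε g) : Sy ε (f + g : L1 (CT h)) := by
  intro n
  rw [lp.coeFn_add, Pi.add_apply, Pi.add_apply, hf n, hg n, star_add]
  exact (smul_add ε (star ((f : ℤ → CT h) n)) (star ((g : ℤ → CT h) n))).symm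

theorem Sy.neg {ε : ℝ} {f : L1 (CT h)} (hf : Sy ε f) : Sy ε (-f : L1 (CT h)) := by
  intro n
  rw [lp.coeFn_neg, Pi.neg_apply, Pi.neg_apply, hf n, star_neg]
  exact (smul_neg ε (star ((f : ℤ → CT h) n))).symm

theorem Sy.smul {ε : ℝ} (c : ℝ) {f : L1 (CT h)} (hf : Sy ε f) : Sy ε (c • f : L1 (CT h)) := by
  intro n
  have hs : ∀ r : ℝ, star r = r := fun r => star_trivial r
  rw [lp.coeFn_smul, Pi.smul_apply, Pi.smul_apply, hf n, star_smul, hs]
  exact smul_comm c ε _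

theorem Sy.diag {ε ε' : ℝ} (O : Ops (CT h) (CT h))
    (hO : ∀ n x, O.T (-n) (ε • star x) = ε' • star (O.T n x)) {f : L1 (CT h)} (hf : Sy ε f) :
    Sy ε' (diag O f) := by
  intro n
  rw [diag_apply, diag_apply, hf n, hO]

theorem k0_neg (n m : ℤ) : k0.c (-n) (-m) = 1 * k0.c n m := by
  show wt (-n) / (wt (-m) * wt (-n - -m)) = 1 * (wt n / (wt m * wt (n - m)))
  rw [show -n - -m = -(n - m) by ring, wt_neg, wt_neg, wt_neg, one_mul]

theorem k1_neg (n m : ℤ) : k1.c (-n) (-m) = (-1) * k1.c n m := by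
  show (if -n = 0 then 0 else wt (-n) / kn (-n) * (kn (-m) / wt (-m) *
    (kn (-n - -m) / wt (-n - -m)))) = (-1) * (if n = 0 then 0 else wt n / kn n * (kn m / wt m *
    (kn (n - m) / wt (n - m))))
  rw [show -n - -m = -(n - m) by ring, wt_neg, wt_neg, wt_neg, kn_neg, kn_neg, kn_neg]
  by_cases hn : n = 0
  · subst hn; simp
  · rw [if_neg hn, if_neg (by omega)]
    have h1 := (wt_pos m).ne'
    have h2 := (wt_pos (n - m)).ne'
    have h3 : kn n ≠ 0 := by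
      intro h0
      have := one_le_abs_kn hn
      rw [h0, abs_zero] at this
      linarith
    field_simp

theorem Sy.pr {ε₁ ε₂ : ℝ} {f g : L1 (CT h)} (hf : Sy ε₁ f) (hg : Sy ε₂ g) :
    Sy (ε₁ * ε₂ * 1) (pr f g) := Sy.B k0 k0_neg hf hg

theorem dd_sym (n : ℤ) (x : CT h) : (dd h).T (-n) ((1 : ℝ) • star x) =
    (-1 : ℝ) • star ((dd h).T n x) := by
  show algebraMap ℝ (CT h) (if -n = 0 then 0 else 1 / kn (-n)) * ((1 : ℝ) • star x) =
    (-1 : ℝ) • star (algebraMap ℝ (CT h) (if n = 0 then 0 else 1 / kn n) * x)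
  have hs : ∀ r : ℝ, star r = r := fun r => star_trivial r
  rw [← Algebra.smul_def, ← Algebra.smul_def, star_smul, smul_smul, smul_smul, hs]
  congr 1
  by_cases hn : n = 0
  · subst hn; simp
  · rw [if_neg hn, if_neg (by omega), kn_neg]
    ring

theorem duh_star (hh : 0 ≤ h) (l : ℝ) (x : CT h) : duh hh l (star x) = star (duh hh l x) := by
  ext τ
  rw [duh_apply, ContinuousMap.star_apply, duh_apply]
  unfold duhF
  have h1 : star (∫ σ in (0 : ℝ)..τ, (Real.exp (-(l * (τ - σ))) : ℂ) * ext hh x σ) =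
      ∫ σ in (0 : ℝ)..τ, star ((Real.exp (-(l * (τ - σ))) : ℂ) * ext hh x σ) := by
    simp only [intervalIntegral, star_sub]
    congr 1 <;> exact integral_conj.symm
  rw [h1]
  refine intervalIntegral.integral_congr fun σ _ => ?_
  rw [star_mul', show star ((Real.exp (-(l * (τ - σ))) : ℝ) : ℂ) =
    ((Real.exp (-(l * (τ - σ))) : ℝ) : ℂ) from Complex.conj_ofReal _]
  rfl

theorem J_sym (hh : 0 ≤ h) (j : ℕ) (hj : j = 1 ∨ j = 2) {ε ε' : ℝ} (he : (-1) ^ j * ε = ε') (n : ℤ)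
    (x : CT h) : (J hh j hj).T (-n) (ε • star x) = ε' • star ((J hh j hj).T n x) := by
  show algebraMap ℝ (CT h) (kn (-n) ^ j) * duh hh (kn (-n) ^ 4) (ε • star x) =
    ε' • star (algebraMap ℝ (CT h) (kn n ^ j) * duh hh (kn n ^ 4) x)
  have hs : ∀ r : ℝ, star r = r := fun r => star_trivial r
  have h1 : duh hh (kn (-n) ^ 4) (ε • star x) = ε • star (duh hh (kn n ^ 4) x) := by
    rw [kn_neg, show (-kn n) ^ 4 = kn n ^ 4 by ring, ← duh_star]
    ext τ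
    rw [duh_apply, ContinuousMap.smul_apply, duh_apply]
    unfold duhF
    rw [← intervalIntegral.integral_smul]
    refine intervalIntegral.integral_congr fun σ _ => ?_
    simp only [ext, IccExtend, Function.comp]
    rw [ContinuousMap.smul_apply, mul_smul_comm]
  rw [h1, ← Algebra.smul_def, ← Algebra.smul_def, star_smul, smul_smul, smul_smul, hs, kn_neg,
    neg_pow, ← he]
  congr 1
  ring

theorem freeEv_sym {f0 : L1 ℂ} (hf0 : ∀ n, f0 (-n) = conj (f0 n)) :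
    Sy 1 (diag (freeEv h) f0) := by
  intro n
  ext τ
  rw [ContinuousMap.smul_apply, ContinuousMap.star_apply, freeEv_apply, freeEv_apply, hf0, kn_neg,
    one_smul, star_mul', show (-kn n) ^ 4 = kn n ^ 4 by ring]
  congr 1
  exact (Complex.conj_ofReal _).symm

theorem pp_sym {f : L1 (CT h)} (hf : Sy 1 f) : Sy (-1) (pp f) := by
  unfold pp
  have h1 : Sy (1 * 1 * (-1)) (B k1 f f) := Sy.B k1 k1_neg hf hf
  have h2 : Sy (1 * 1 * 1) (pr f f) := hf.pr hf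
  have h3 : Sy (1 * 1 * 1 * (1 * 1 * 1) * 1) (pr (pr f f) (pr f f)) := h2.pr h2
  have h4 : Sy (-1) (diag (dd h) (pr (pr f f) (pr f f))) := by
    refine Sy.diag (ε := 1) (dd h) dd_sym ?_
    simpa using h3
  refine (Sy.neg ?_).sub (h4.smul _)
  simpa using h1

theorem Phi_sym (hh : 0 ≤ h) {f0 : L1 ℂ} (hf0 : ∀ n, f0 (-n) = conj (f0 n)) {f : L1 (CT h)}
    (hf : Sy 1 f) : Sy 1 (Phi hh f0 f) := by
  unfold Phi
  refine ((freeEv_sym hf0).add ?_).add ?_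
  · refine Sy.diag (ε := 1) _ (J_sym hh 2 _ (by norm_num)) ?_
    unfold N2
    refine Sy.smul _ ?_
    have h2 : Sy (1 * 1 * 1) (pr f f) := hf.pr hf
    have := hf.pr h2
    simpa using this
  · refine Sy.diag (ε := -1) _ (J_sym hh 1 _ (by norm_num)) ?_
    unfold N1
    have := hf.pr (pp_sym hf)
    simpa using this

end sym

/-! ## the fixed point -/

section fix

/-- the existence time for data of norm `≤ R` -/
noncomputable def hR (R : ℝ) : ℝ := (1 / (108 * (2 * R) ^ 4)) ^ 2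

theorem hR_pos {R : ℝ} (hR1 : 1 ≤ R) : 0 < hR R := by
  unfold hR
  have : 0 < R := by linarith
  positivity

theorem isClosed_sym (h : ℝ) : IsClosed {f : L1 (CT h) | Sy 1 f} := by
  have h1 : {f : L1 (CT h) | Sy 1 f} = ⋂ n : ℤ, {f : L1 (CT h) | f (-n) = (1 : ℝ) • star (f n)} := by
    ext f
    simp [Sy]
  rw [h1]
  have hev : ∀ n : ℤ, Continuous fun f : L1 (CT h) => f n := by
    intro n
    refine (LipschitzWith.of_dist_le_mul (K := 1) fun f g => ?_).continuous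
    rw [NNReal.coe_one, one_mul, dist_eq_norm, dist_eq_norm]
    have := le_norm1 (f - g) n
    rwa [lp.coeFn_sub] at this
  refine isClosed_iInter fun n => isClosed_eq (hev _) ?_
  have h2 : Continuous fun x : CT h => (1 : ℝ) • star x := by fun_prop
  exact h2.comp (hev n)

theorem exists_fix {R : ℝ} (hR1 : 1 ≤ R) (f0 : L1 ℂ) (hf0 : ‖f0‖ ≤ R)
    (hs : ∀ n, f0 (-n) = conj (f0 n)) :
    ∃ f : L1 (CT (hR R)), Sy 1 f ∧ f = Phi (hR_pos hR1).le f0 f := by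
  set h := hR R with hh
  have h0 : 0 ≤ h := (hR_pos hR1).le
  have hsq : √h = 1 / (108 * (2 * R) ^ 4) := by
    rw [hh, hR, Real.sqrt_sq (by positivity)]
  have hρ : 1 ≤ 2 * R := by linarith
  have hρ4 : 0 < (2 * R) ^ 4 := by positivity
  let s : Set (L1 (CT h)) := Metric.closedBall 0 (2 * R) ∩ {f | Sy 1 f}
  have hsc : IsComplete s := (Metric.isClosed_closedBall.inter (isClosed_sym h)).isComplete
  have hmaps : MapsTo (Phi h0 f0) s s := by
    intro f hf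
    have hfn : ‖f‖ ≤ 2 * R := by simpa using hf.1
    refine ⟨?_, Phi_sym h0 hs hf.2⟩
    rw [mem_closedBall_zero_iff]
    refine (Phi_le h0 hρ f0 hfn).trans ?_
    rw [hsq]
    have : 1 / (108 * (2 * R) ^ 4) * (18 * (2 * R) ^ 5) = R / 3 := by
      have : R ≠ 0 := by linarith
      field_simp
      ring
    rw [this]
    linarith
  have hlip : ContractingWith (1 / 2) (hmaps.restrict (Phi h0 f0) s s) := by
    refine ⟨by norm_num, LipschitzWith.of_dist_le_mul fun f g => ?_⟩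
    have hf : ‖(f : L1 (CT h))‖ ≤ 2 * R := by simpa using f.2.1
    have hg : ‖(g : L1 (CT h))‖ ≤ 2 * R := by simpa using g.2.1
    rw [Subtype.dist_eq, Subtype.dist_eq, dist_eq_norm, dist_eq_norm]
    refine (Phi_sub h0 hρ f0 hf hg).trans (le_of_eq ?_)
    rw [hsq]
    push_cast
    congr 1
    field_simp
    norm_num
  have h0s : (0 : L1 (CT h)) ∈ s := by
    refine ⟨by simp; linarith, fun n => ?_⟩
    rw [lp.coeFn_zero, Pi.zero_apply, Pi.zero_apply]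
    simp
  obtain ⟨f, hf, hfix, -⟩ := ContractingWith.exists_fixedPoint' hsc hmaps hlip h0s
    (edist_ne_top _ _)
  exact ⟨f, hf.2, hfix.symm⟩

end fix

end Pool.Agent.helper69.EM
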